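import Pool.Agent.P.MP_b0c4db_lc.Half.Stm

/-! Digits and roots of unity of order a power of three. -/

namespace Pool.Agent.P.MP_b0c4db_lc.Half

open Finset

theorem dg_lt {B : ℕ} (hB : 0 < B) (u j : ℕ) : dg B u j < B := Nat.mod_lt _ hB

theorem val_dg_mod (t h a : ℕ) : val t h (dg h a) = a % h ^ t := by
  induction t with
  | zero => simp [val, Nat.mod_one]
  | succ t ih =>
    unfold val at ih ⊢
    rw [sum_range_succ, ih, Nat.mod_pow_succ, dg, mul_comm]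

theorem val_dg {t h a : ℕ} (ha : a < h ^ t) : val t h (dg h a) = a := by
  rw [val_dg_mod, Nat.mod_eq_of_lt ha]

theorem exists_dg (B t : ℕ) (κ : ℕ → ℕ) (hκ : ∀ j < t, κ j < B) :
    ∃ k < B ^ t, ∀ j < t, dg B k j = κ j := by
  induction t generalizing κ with
  | zero => exact ⟨0, by simp, by simp⟩
  | succ t ih =>
    obtain ⟨k, h1, h2⟩ := ih (fun j => κ (j + 1)) fun j hj => hκ _ (by omega)
    have h0 := hκ 0 (by omega)
    refine ⟨B * k + κ 0, ?_, fun j hj => ?_⟩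
    · rw [pow_succ']
      nlinarith
    · cases j with
      | zero => simp [dg, Nat.mod_eq_of_lt h0]
      | succ j =>
        rw [← h2 j (by omega), dg, dg, pow_succ', ← Nat.div_div_eq_div_mul,
          Nat.mul_add_div (by omega), Nat.div_eq_of_lt h0, add_zero]

theorem val_add (t h : ℕ) (κ κ' : ℕ → ℕ) :
    val t h (fun j => κ j + κ' j) = val t h κ + val t h κ' := by
  simp [val, add_mul, sum_add_distrib]

theorem four_pow (j : ℕ) : ∃ c, 4 ^ 3 ^ j = 3 * 3 ^ j * c + 1 := by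
  induction j with
  | zero => exact ⟨1, rfl⟩
  | succ j ih =>
    obtain ⟨c, hc⟩ := ih
    refine ⟨c + 3 * 3 ^ j * c ^ 2 + 3 * (3 ^ j) ^ 2 * c ^ 3, ?_⟩
    rw [pow_succ 3 j, pow_mul, hc]
    ring

variable {K : Type} [Field K]

theorem mon_add (t : ℕ) (y : ℕ → K) (κ κ' : ℕ → ℕ) :
    mon t y (fun j => κ j + κ' j) = mon t y κ * mon t y κ' := by
  simp [mon, pow_add, prod_mul_distrib]

theorem mon_pow (t h : ℕ) (P : K) (κ : ℕ → ℕ) :
    mon t (fun j => P ^ h ^ j) κ = P ^ val t h κ := by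
  unfold mon val
  rw [← prod_pow_eq_pow_sum]
  exact prod_congr rfl fun j _ => by rw [← pow_mul, mul_comm]

theorem cube {ζ : K} {M : ℕ} (h : ζ ^ (2 * M) + ζ ^ M + 1 = 0) : ζ ^ (3 * M) = 1 := by
  have : ζ ^ (3 * M) - 1 = (ζ ^ M - 1) * (ζ ^ (2 * M) + ζ ^ M + 1) := by ring
  rw [h, mul_zero] at this
  exact sub_eq_zero.1 this

theorem fix_of_cube {z : K} {s : ℕ} (hs : ∃ j, s = 3 ^ j) (h : z ^ (3 * s) = 1) :
    z ^ 4 ^ s = z := by
  obtain ⟨j, rfl⟩ := hs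
  obtain ⟨c, hc⟩ := four_pow j
  rw [hc, pow_succ, pow_mul, h, one_pow, one_mul]

theorem four_eq (n : ℕ) : 4 ^ n = 2 ^ (2 * n) := by rw [pow_mul]; rfl

/-- a combination of powers of a fixed element is fixed -/
theorem fix_sum [CharP K 2] {z : K} {n : ℕ} (h : z ^ 4 ^ n = z) (r : ℕ) (f : ℕ → ℕ) :
    (∑ a ∈ range r, (f a : K) * z ^ a) ^ 4 ^ n = ∑ a ∈ range r, (f a : K) * z ^ a := by
  have : Fact (Nat.Prime 2) := ⟨Nat.prime_two⟩
  rw [four_eq] at h ⊢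
  rw [sum_pow_char_pow]
  refine sum_congr rfl fun a _ => ?_
  rw [mul_pow, ← pow_mul z, mul_comm a, pow_mul z, h]
  congr 1
  exact map_natCast (iterateFrobenius K 2 (2 * n)) (f a)

theorem cd_fix [CharP K 2] {ζ : K} {s D : ℕ} (hs : ∃ j, s = 3 ^ j)
    (h : ζ ^ (2 * (s * D)) + ζ ^ (s * D) + 1 = 0) (u j : ℕ) :
    cd ζ s D u j ^ 4 ^ s = cd ζ s D u j :=
  fix_sum (fix_of_cube hs (by rw [← pow_mul, ← cube h]; congr 1; ring)) _ _

theorem cd_fix' [CharP K 2] {ζ : K} {n : ℕ} (h : ζ ^ 4 ^ n = ζ) (s D u j : ℕ) :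
    cd ζ s D u j ^ 4 ^ n = cd ζ s D u j :=
  fix_sum (by rw [← pow_mul, mul_comm, pow_mul, h]) _ _

end Pool.Agent.P.MP_b0c4db_lc.Half
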