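import Pool.Agent.P.MP_b0c4db_lc.Half.Bas

/-! The bridge between the congruences modulo two and the equations over a field. -/

namespace Pool.Agent.P.MP_b0c4db_lc.Half

open Finset

namespace BrP

theorem lsum {R : Type} [AddCommMonoid R] (n : ℕ) (f : ℕ → R) :
    ((List.range n).map f).sum = ∑ a ∈ range n, f a := by
  induction n with
  | zero => simp
  | succ n ih => rw [List.range_succ, List.map_append, List.sum_append, ih, sum_range_succ]; simp

theorem lprod {R : Type} [CommMonoid R] (n : ℕ) (f : ℕ → R) :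
    ((List.range n).map f).prod = ∏ a ∈ range n, f a := by
  induction n with
  | zero => simp
  | succ n ih => rw [List.range_succ, List.map_append, List.prod_append, ih, prod_range_succ]; simp

theorem getD_map (n : ℕ) (f : ℕ → ℕ) {a : ℕ} (ha : a < n) :
    ((List.range n).map f).getD a 0 = f a := by
  simp [List.getD_eq_getElem?_getD, ha]

theorem sum_mul_range {R : Type} [AddCommMonoid R] (n D : ℕ) (F : ℕ → R) :
    ∑ a ∈ range (n * D), F a = ∑ b ∈ range n, ∑ c ∈ range D, F (b * D + c) := by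
  induction n with
  | zero => simp
  | succ n ih => rw [Nat.succ_mul, sum_range_add, ih, sum_range_succ]

variable {K : Type} [Field K]

theorem ev_map (ζ : K) (M : ℕ) (f : ℕ → ℕ) :
    ev ζ M ((List.range (2 * M)).map f) = ∑ a ∈ range (2 * M), (f a : K) * ζ ^ a := by
  unfold ev
  exact sum_congr rfl fun a ha => by rw [getD_map _ _ (mem_range.1 ha)]

theorem ev_nil (ζ : K) (M : ℕ) : ev ζ M [] = 0 := by simp [ev]

theorem ev_ad (ζ : K) (M : ℕ) (u v : List ℕ) : ev ζ M (ad M u v) = ev ζ M u + ev ζ M v := by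
  unfold ad
  rw [ev_map, ev, ev, ← sum_add_distrib]
  exact sum_congr rfl fun a _ => by push_cast; ring

theorem ev_el (ζ : K) (s : ℕ) {D : ℕ} (hD : 0 < D) (u j : ℕ) :
    ev ζ (s * D) (el s D u j) = cd ζ s D u j := by
  unfold el cd
  rw [ev_map, ← mul_assoc, sum_mul_range]
  refine sum_congr rfl fun b _ => ?_
  rw [sum_eq_single 0]
  · have h1 : (b * D + 0) % D = 0 := by simp
    have h2 : (b * D + 0) / D = b := by simp [Nat.mul_div_cancel _ hD]
    rw [h1, h2, add_zero, ← pow_mul, mul_comm D b]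
    simp
  · intro c hc hc0
    have h1 : (b * D + c) % D = c := by
      rw [Nat.mul_add_mod_self_right, Nat.mod_eq_of_lt (mem_range.1 hc)]
    rw [h1]
    simp [hc0]
  · intro h
    exact absurd (mem_range.2 hD) h

theorem mon_congr {t : ℕ} (y : ℕ → K) {κ κ' : ℕ → ℕ} (h : ∀ j < t, κ j = κ' j) :
    mon t y κ = mon t y κ' :=
  prod_congr rfl fun j hj => by rw [h j (mem_range.1 hj)]

theorem val_congr {t : ℕ} (h : ℕ) {κ κ' : ℕ → ℕ} (H : ∀ j < t, κ j = κ' j) :
    val t h κ = val t h κ' :=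
  sum_congr rfl fun j hj => by rw [H j (mem_range.1 hj)]

theorem LL_congr (ξ : K) {t : ℕ} (q : ℕ) (Y : ℕ → ℕ → K) (A : Finset ℕ) {κ κ' : ℕ → ℕ}
    (h : ∀ j < t, κ j = κ' j) : LL ξ t q Y A κ = LL ξ t q Y A κ' :=
  sum_congr rfl fun u _ => by rw [mon_congr _ h]

theorem pm_eq {t j : ℕ} (h : ℕ) (hj : j < t) : pm t h j = h ^ j := by
  rw [pm, min_eq_left hj.le]

theorem vk_eq (t h k : ℕ) : vk t h k = val t h (dg (2 * h) k) := by
  unfold vk val
  rw [lsum]
  exact sum_congr rfl fun j hj => by rw [pm_eq h (mem_range.1 hj)]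

variable [CharP K 2]

theorem red_sum {ζ : K} {M : ℕ} (hM : 0 < M) (h : ζ ^ (2 * M) + ζ ^ M + 1 = 0) (k : ℕ) :
    ∑ a ∈ range (2 * M), (red M k a : K) * ζ ^ a = ζ ^ k := by
  have h3 : ζ ^ k = ζ ^ (k % (3 * M)) := by
    conv_lhs => rw [← Nat.div_add_mod k (3 * M), pow_add, pow_mul, cube h, one_pow, one_mul]
  have hr : k % (3 * M) < 3 * M := Nat.mod_lt _ (by omega)
  rw [h3]
  unfold red
  generalize k % (3 * M) = r at hr
  by_cases hlt : r < 2 * M
  · rw [sum_eq_single r]
    · simp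
    · intro a _ har
      have h1 : ¬ r = a := fun e => har e.symm
      have h2 : ¬ r = 2 * M + a % M := by omega
      simp [h1, h2]
    · intro hn
      exact absurd (mem_range.2 hlt) hn
  · obtain ⟨c, rfl⟩ : ∃ c, r = 2 * M + c := ⟨r - 2 * M, by omega⟩
    have hc : c < M := by omega
    rw [two_mul M, sum_range_add, sum_eq_single c, sum_eq_single c]
    · have h1 : c % M = c := Nat.mod_eq_of_lt hc
      have h2 : (M + c) % M = c := by rw [Nat.add_mod_left, h1]
      have h4 : ζ ^ (M + M) = ζ ^ M + 1 := by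
        rw [← two_mul]
        have := CharTwo.add_self_eq_zero (ζ ^ M + 1)
        linear_combination h - this
      simp only [h1, h2, decide_true, Bool.or_true, cond_true, Nat.cast_one, one_mul]
      rw [pow_add ζ (M + M), h4, pow_add]
      ring
    · intro a ha hac
      have ha' := mem_range.1 ha
      have h1 : (M + a) % M = a := by rw [Nat.add_mod_left, Nat.mod_eq_of_lt ha']
      have h2 : ¬ M + M + c = M + a := by omega
      have h3 : ¬ M + M + c = M + M + a := by omega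
      simp only [h1, h2, h3, decide_false, Bool.or_false, cond_false, Nat.cast_zero, zero_mul]
    · intro hn
      exact absurd (mem_range.2 hc) hn
    · intro a ha hac
      have ha' := mem_range.1 ha
      have h1 : a % M = a := Nat.mod_eq_of_lt ha'
      have h2 : ¬ M + M + c = a := by omega
      have h3 : ¬ M + M + c = M + M + a := by omega
      simp only [h1, h2, h3, decide_false, Bool.or_false, cond_false, Nat.cast_zero, zero_mul]
    · intro hn
      exact absurd (mem_range.2 hc) hn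

theorem ev_mn {ζ : K} {M : ℕ} (hM : 0 < M) (h : ζ ^ (2 * M) + ζ ^ M + 1 = 0) (k : ℕ) :
    ev ζ M (mn M k) = ζ ^ k := by
  unfold mn
  rw [ev_map, red_sum hM h]

theorem ev_ml {ζ : K} {M : ℕ} (hM : 0 < M) (h : ζ ^ (2 * M) + ζ ^ M + 1 = 0) (u v : List ℕ) :
    ev ζ M (ml M u v) = ev ζ M u * ev ζ M v := by
  unfold ml
  rw [ev_map, ev, ev, sum_mul_sum]
  simp only [← CharP.cast_eq_mod K 2, lsum]
  push_cast
  simp only [sum_mul]
  rw [sum_comm]
  refine sum_congr rfl fun a _ => ?_
  rw [sum_comm]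
  refine sum_congr rfl fun b _ => ?_
  have := red_sum hM h (a + b)
  simp only [mul_assoc]
  rw [← mul_sum, ← mul_sum, this, pow_add]
  ring

theorem ev_foldl {ζ : K} {M : ℕ} (hM : 0 < M) (h : ζ ^ (2 * M) + ζ ^ M + 1 = 0)
    (L : List (List ℕ)) (x : List ℕ) :
    ev ζ M (L.foldl (ml M) x) = ev ζ M x * (L.map (ev ζ M)).prod := by
  induction L generalizing x with
  | nil => simp
  | cons y L ih => rw [List.foldl_cons, ih, ev_ml hM h, List.map_cons, List.prod_cons, mul_assoc]

theorem ev_prd {ζ : K} {M : ℕ} (hM : 0 < M) (h : ζ ^ (2 * M) + ζ ^ M + 1 = 0)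
    (L : List (List ℕ)) : ev ζ M (prd M L) = (L.map (ev ζ M)).prod := by
  rw [prd, ev_foldl hM h, ev_mn hM h, pow_zero, one_mul]

theorem ev_pwr {ζ : K} {M : ℕ} (hM : 0 < M) (h : ζ ^ (2 * M) + ζ ^ M + 1 = 0)
    (u : List ℕ) (n : ℕ) : ev ζ M (pwr M u n) = ev ζ M u ^ n := by
  rw [pwr, ev_prd hM h, List.map_replicate, List.prod_replicate]

theorem ev_monL {ζ : K} {s D : ℕ} (hs : 0 < s) (hD : 0 < D)
    (h : ζ ^ (2 * (s * D)) + ζ ^ (s * D) + 1 = 0) (t u B k : ℕ) :
    ev ζ (s * D) (monL t s D u B k) = mon t (cd ζ s D u) (dg B k) := by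
  have hM := Nat.mul_pos hs hD
  rw [monL, ev_prd hM h, List.map_map, lprod]
  exact prod_congr rfl fun j _ => by
    simp only [Function.comp]
    rw [ev_pwr hM h, ev_el ζ s hD]

theorem ev_gL {ζ : K} {s D : ℕ} (hs : 0 < s) (hD : 0 < D)
    (h : ζ ^ (2 * (s * D)) + ζ ^ (s * D) + 1 = 0) (t q u : ℕ) :
    ev ζ (s * D) (gL t s D q u) = gw ζ q (cd ζ s D u t) := by
  have hM := Nat.mul_pos hs hD
  rw [gL, ev_ad, ev_pwr hM h, ev_ad, ev_mn hM h, ev_mn hM h, ev_el ζ s hD, pow_zero, pow_one, gw]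

theorem ev_pjL {ζ : K} {M : ℕ} (hM : 0 < M) (hz : ζ ^ (2 * M) + ζ ^ M + 1 = 0) {t j : ℕ}
    (hj : j < t) (h : ℕ) (o : Oc) (y : List ℕ) :
    ev ζ M (pjL t M h o j y) = pj ζ M h o j (ev ζ M y) := by
  rw [pjL, ev_ml hM hz, ev_mn hM hz, ev_ad, ev_ad, ev_ml hM hz, pm_eq h hj, pj]
  cases o.2.2
  · simp [ev_nil]
  · simp [ev_mn hM hz]

theorem ev_lpL {ζ : K} {s D : ℕ} (hs : 0 < s) (hD : 0 < D)
    (hz : ζ ^ (2 * (s * D)) + ζ ^ (s * D) + 1 = 0) (t h : ℕ) (o : Oc) (u k : ℕ) :
    ev ζ (s * D) (lpL t s D h o u k) =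
      ∏ j ∈ range t, pj ζ (s * D) h o j (cd ζ s D u j) ^ dg h k j := by
  have hM := Nat.mul_pos hs hD
  rw [lpL, ev_prd hM hz, List.map_map, lprod]
  exact prod_congr rfl fun j hj => by
    simp only [Function.comp]
    rw [ev_pwr hM hz, ev_pjL hM hz (mem_range.1 hj), ev_el ζ s hD]

omit [CharP K 2] in
/-- the combination of the congruences with the powers of `ζ` -/
theorem comb (ζ : K) {M : ℕ} (hM : 0 < M) (n Q : ℕ) (X : ℕ → ℕ → List ℕ) (μ : ℕ → ℕ → ℤ)
    (b : Bool) :
    ∑ a ∈ range (2 * M), ((∑ T ∈ range n, ∑ u ∈ range Q, (((X T u).getD a 0 : ℕ) : ℤ) * μ T u -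
        ind (b && decide (a = 0)) : ℤ) : K) * ζ ^ a =
      ∑ T ∈ range n, ∑ u ∈ range Q, (μ T u : K) * ev ζ M (X T u) - cond b 1 0 := by
  push_cast
  simp only [sub_mul, sum_sub_distrib]
  congr 1
  · simp only [sum_mul, ev, mul_sum]
    rw [sum_comm]
    refine sum_congr rfl fun T _ => ?_
    rw [sum_comm]
    exact sum_congr rfl fun u _ => sum_congr rfl fun a _ => by ring
  · rw [sum_eq_single 0]
    · cases b <;> simp [ind]
    · intro a _ ha
      simp [ind, ha]
    · intro hn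
      exact absurd (mem_range.2 (by omega)) hn

/-- the left-hand side of an equation over the field -/
noncomputable def W (ζ : K) (t s D h q m : ℕ) (g : List Oc) (A : ℕ → Finset ℕ)
    (e T' k i : ℕ) : K :=
  ∑ T ∈ range (g.length + 1), ∑ u ∈ A T, ev ζ (s * D) (cf t s D h q m g e T' k i T u)

section

variable {ζ : K} {s D : ℕ} (hs : 0 < s) (hD : 0 < D)
  (hz : ζ ^ (2 * (s * D)) + ζ ^ (s * D) + 1 = 0) (t h q m : ℕ) (g : List Oc) (A : ℕ → Finset ℕ)

include hs hD hz

theorem W0 {T' : ℕ} (hT : T' < g.length + 1) (k : ℕ) {i : ℕ} (hi : 2 * t * h * D < i) :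
    W ζ t s D h q m g A 0 T' k i =
      ∑ u ∈ A T', mon t (cd ζ s D u) (dg (2 * h) k) * cd ζ s D u t ^ (q - 1 - i) := by
  have hM := Nat.mul_pos hs hD
  unfold W
  rw [sum_eq_single T']
  · refine sum_congr rfl fun u _ => ?_
    simp only [cf, hi, decide_true, cond_true, Bool.and_true]
    rw [ev_ml hM hz, ev_monL hs hD hz, ev_pwr hM hz, ev_el ζ s hD]
  · intro T _ hT
    simp [cf, hT, ev_nil]
  · intro hn
    exact absurd (mem_range.2 hT) hn

theorem W1 {T' : ℕ} (hT : T' < g.length + 1) {k : ℕ} (hk : vk t h k < h ^ t) (i : ℕ) :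
    W ζ t s D h q m g A 1 T' k i = LL ζ t q (cd ζ s D) (A T') (dg (2 * h) k) +
      LL ζ t q (cd ζ s D) (A T') (dg h (vk t h k)) := by
  have hM := Nat.mul_pos hs hD
  unfold W LL
  rw [sum_eq_single T', ← sum_add_distrib]
  · refine sum_congr rfl fun u _ => ?_
    simp only [cf, hk, decide_true, cond_true, Bool.and_true, one_ne_zero, decide_false,
      cond_false]
    rw [ev_ml hM hz, ev_ad, ev_monL hs hD hz, ev_monL hs hD hz, ev_gL hs hD hz, mul_add]
  · intro T _ hT
    simp [cf, hT, ev_nil]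
  · intro hn
    exact absurd (mem_range.2 hT) hn

theorem W2 {T' : ℕ} (hT : T' < m) {k : ℕ} (hk : 2 * k < h ^ t) (i : ℕ) :
    W ζ t s D h q m g A 2 T' k i = LL ζ t q (cd ζ s D) (A g.length) (dg h k) +
      ∑ T ∈ range g.length with (oc g T).1 = T',
        LP ζ t (s * D) h q (cd ζ s D) (A T) (oc g T) k := by
  have hM := Nat.mul_pos hs hD
  have e0 : ¬ (2 : ℕ) = 0 := by omega
  have e1 : ¬ (2 : ℕ) = 1 := by omega
  unfold W
  rw [sum_range_succ, add_comm, sum_filter]
  congr 1
  · refine sum_congr rfl fun u _ => ?_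
    simp only [cf, hk, hT, e0, e1, decide_true, cond_true, Bool.and_true, decide_false,
      cond_false]
    rw [ev_ml hM hz, ev_monL hs hD hz, ev_gL hs hD hz]
  · refine sum_congr rfl fun T hT' => ?_
    have hne : ¬ T = g.length := (mem_range.1 hT').ne
    by_cases ho : (oc g T).1 = T'
    · rw [if_pos ho]
      refine sum_congr rfl fun u _ => ?_
      simp only [cf, hk, hT, e0, e1, hne, ho, decide_true, cond_true, Bool.and_true, decide_false,
        cond_false]
      rw [ev_ml hM hz, ev_lpL hs hD hz, ev_gL hs hD hz]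
    · rw [if_neg ho]
      refine sum_eq_zero fun u _ => ?_
      simp only [cf, hk, hT, e0, e1, hne, ho, decide_true, cond_true, Bool.and_true, decide_false,
        cond_false, ev_nil]

theorem W3 (T' k i : ℕ) :
    W ζ t s D h q m g A 3 T' k i = LL ζ t q (cd ζ s D) (A g.length) fun _ => 0 := by
  have e0 : ¬ (3 : ℕ) = 0 := by omega
  have e1 : ¬ (3 : ℕ) = 1 := by omega
  have e2 : ¬ (3 : ℕ) = 2 := by omega
  unfold W
  rw [sum_range_succ, sum_eq_zero, zero_add]
  · refine sum_congr rfl fun u _ => ?_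
    simp only [cf, e0, e1, e2, decide_true, cond_true, decide_false, cond_false]
    rw [ev_gL hs hD hz]
    simp [mon]
  · intro T hT'
    have hne : ¬ T = g.length := (mem_range.1 hT').ne
    refine sum_eq_zero fun u _ => ?_
    simp only [cf, e0, e1, e2, hne, decide_false, cond_false, ev_nil]

omit hs hD hz [CharP K 2] in
theorem W0' {T' k i : ℕ} (H : ¬ (T' < g.length + 1 ∧ 2 * t * h * D < i)) :
    W ζ t s D h q m g A 0 T' k i = 0 := by
  refine sum_eq_zero fun T hT => sum_eq_zero fun u _ => ?_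
  have : ¬ (T = T' ∧ 2 * t * h * D < i) := fun c => H ⟨c.1 ▸ mem_range.1 hT, c.2⟩
  have e : (decide (T = T') && decide (2 * t * h * D < i)) = false := by simpa using this
  simp only [cf, e, decide_true, cond_true, cond_false, ev_nil]

omit hs hD hz [CharP K 2] in
theorem W1' {T' k i : ℕ} (H : ¬ (T' < g.length + 1 ∧ vk t h k < h ^ t)) :
    W ζ t s D h q m g A 1 T' k i = 0 := by
  refine sum_eq_zero fun T hT => sum_eq_zero fun u _ => ?_
  have : ¬ (T = T' ∧ vk t h k < h ^ t) := fun c => H ⟨c.1 ▸ mem_range.1 hT, c.2⟩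
  have e : (decide (T = T') && decide (vk t h k < h ^ t)) = false := by simpa using this
  simp only [cf, e, decide_true, cond_true, cond_false, ev_nil, one_ne_zero, decide_false]

omit hs hD hz [CharP K 2] in
theorem W2' {T' k i : ℕ} (H : ¬ (T' < m ∧ 2 * k < h ^ t)) :
    W ζ t s D h q m g A 2 T' k i = 0 := by
  refine sum_eq_zero fun T _ => sum_eq_zero fun u _ => ?_
  have e0 : ¬ (2 : ℕ) = 0 := by omega
  have e1 : ¬ (2 : ℕ) = 1 := by omega
  have e : (decide (T' < m) && decide (2 * k < h ^ t)) = false := by simpa using H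
  simp only [cf, e, e0, e1, decide_true, cond_true, cond_false, ev_nil, decide_false]

/-- the equations give a solution over the field -/
theorem fsol_of (hh : 0 < h) (hq : 0 < q)
    (H : ∀ e < 4, ∀ T' < g.length + 1 + m, ∀ k < (2 * h) ^ t, ∀ i < q,
      W ζ t s D h q m g A e T' k i = cond (decide (e = 3)) 1 0) :
    FSol ζ t s D h q m g A := by
  refine ⟨fun T hT => ⟨fun κ hκ i hi hiq => ?_, fun κ hκ hv => ?_⟩, fun c hc a ha => ?_, ?_⟩
  · obtain ⟨k, hk, hk'⟩ := exists_dg (2 * h) t κ hκ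
    have := H 0 (by omega) T (by omega) k hk i hiq
    rw [W0 hs hD hz t h q m g A (by omega) k hi] at this
    refine Eq.trans (sum_congr rfl fun u _ => ?_) this
    rw [mon_congr _ hk']
  · obtain ⟨k, hk, hk'⟩ := exists_dg (2 * h) t κ hκ
    have hv' : vk t h k = val t h κ := by rw [vk_eq, val_congr h hk']
    have := H 1 (by omega) T (by omega) k hk 0 hq
    rw [W1 hs hD hz t h q m g A (by omega) (hv' ▸ hv), hv', LL_congr _ _ _ _ hk'] at this
    exact CharTwo.add_eq_zero.1 this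
  · have hle : h ^ t ≤ (2 * h) ^ t := Nat.pow_le_pow_left (by omega) t
    have := H 2 (by omega) c (by omega) a (by omega) 0 hq
    rw [W2 hs hD hz t h q m g A hc ha] at this
    exact CharTwo.add_eq_zero.1 this
  · have := H 3 (by omega) 0 (by omega) 0 (by positivity) 0 hq
    rwa [W3 hs hD hz] at this

/-- a solution over the field satisfies the equations -/
theorem of_fsol (hh : 0 < h) (H : FSol ζ t s D h q m g A) {e : ℕ} (he : e < 4) (T' k : ℕ) {i : ℕ}
    (hi : i < q) : W ζ t s D h q m g A e T' k i = cond (decide (e = 3)) 1 0 := by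
  obtain ⟨H1, H2, H3⟩ := H
  have hd : ∀ j < t, dg (2 * h) k j < 2 * h := fun j _ => dg_lt (by omega) k j
  interval_cases e
  · by_cases c : T' < g.length + 1 ∧ 2 * t * h * D < i
    · rw [W0 hs hD hz t h q m g A c.1 k c.2]
      exact (H1 T' (by omega)).1 _ hd i c.2 hi
    · exact W0' t h q m g A c
  · by_cases c : T' < g.length + 1 ∧ vk t h k < h ^ t
    · rw [W1 hs hD hz t h q m g A c.1 c.2, vk_eq]
      exact CharTwo.add_eq_zero.2 ((H1 T' (by omega)).2 _ hd (vk_eq t h k ▸ c.2))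
    · exact W1' t h q m g A c
  · by_cases c : T' < m ∧ 2 * k < h ^ t
    · rw [W2 hs hD hz t h q m g A c.1 c.2]
      exact CharTwo.add_eq_zero.2 (H2 T' c.1 k c.2)
    · exact W2' t h q m g A c
  · rw [W3 hs hD hz]
    exact H3

end

theorem cast_odd (x : ℤ) : (x : K) = if Odd x then 1 else 0 := by
  have h2 : (2 : K) = 0 := CharTwo.two_eq_zero
  split_ifs with h
  · obtain ⟨y, rfl⟩ := h
    push_cast
    rw [h2, zero_mul, zero_add]
  · obtain ⟨y, rfl⟩ := Int.not_odd_iff_even.1 h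
    push_cast
    exact CharTwo.add_self_eq_zero _

end BrP

open BrP

theorem br1 : S_Br1 := by
  intro K _ _ ζ t s D h q m g hs hD hh hq hz μ H
  refine fsol_of hs hD hz t h q m g _ hh hq fun e he T' hT' k hk i hi => ?_
  have hc := comb ζ (Nat.mul_pos hs hD) (g.length + 1) (q ^ (t + 1))
    (cf t s D h q m g e T' k i) μ (decide (e = 3))
  rw [sum_eq_zero] at hc
  · rw [← sub_eq_zero.1 hc.symm]
    refine sum_congr rfl fun T _ => ?_
    rw [sum_filter]
    refine sum_congr rfl fun u _ => ?_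
    rw [cast_odd]
    split_ifs <;> simp
  · intro a ha
    obtain ⟨y, hy⟩ := H e he T' hT' k hk i hi a (mem_range.1 ha)
    rw [hy]
    push_cast
    rw [show (2 : K) = 0 from CharTwo.two_eq_zero, zero_mul, zero_mul]

theorem br2 : S_Br2 := by
  intro K _ _ ζ t s D h q m g hs hD hh hz hI A hA H e he T' _ k _ i hi
  have hc := comb ζ (Nat.mul_pos hs hD) (g.length + 1) (q ^ (t + 1))
    (cf t s D h q m g e T' k i) (fun T u => if u ∈ A T then 1 else 0) (decide (e = 3))
  refine hI _ (hc.trans ?_)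
  rw [sub_eq_zero, ← of_fsol hs hD hz t h q m g A hh H he T' k hi]
  refine sum_congr rfl fun T _ => ?_
  rw [← sum_subset (hA T)]
  · exact sum_congr rfl fun u hu => by simp [hu]
  · intro u _ hu
    simp [hu]

end Pool.Agent.P.MP_b0c4db_lc.Half
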