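import Pool.Agent.P.MP_b0c4db_lc.Half.Bas

/-! The finite field generated by a root of unity of order a power of three. -/

namespace Pool.Agent.P.MP_b0c4db_lc.Half

open Finset Polynomial

namespace FldP

theorem ord_two (j : ℕ) : orderOf (2 : ZMod (3 ^ (j + 1))) = 2 * 3 ^ j := by
  have h4 : orderOf ((2 : ZMod (3 ^ (j + 1))) ^ 2) = 3 ^ j := by
    have := ZMod.orderOf_one_add_prime Nat.prime_three (by norm_num) j
    rw [← this]
    congr 1
    push_cast
    norm_num
  have he : 2 ∣ orderOf (2 : ZMod (3 ^ (j + 1))) := by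
    have h1 := pow_orderOf_eq_one (2 : ZMod (3 ^ (j + 1)))
    have h2 := congrArg (ZMod.castHom (dvd_pow_self 3 (Nat.succ_ne_zero j)) (ZMod 3)) h1
    rw [map_pow, map_one, map_ofNat] at h2
    have h3 : orderOf (2 : ZMod 3) = 2 := orderOf_eq_prime (by decide) (by decide)
    have := orderOf_dvd_of_pow_eq_one h2
    rwa [h3] at this
  rw [orderOf_pow_of_dvd two_ne_zero he] at h4
  omega

theorem irr (j : ℕ) : Irreducible (cyclotomic (3 ^ (j + 1)) (ZMod 2)) := by
  have hn : ¬ 2 ∣ 3 ^ (j + 1) := fun h => by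
    have := Nat.prime_two.dvd_of_dvd_pow h
    omega
  refine ZMod.irreducible_of_dvd_cyclotomic_of_natDegree hn dvd_rfl ?_
  rw [natDegree_cyclotomic, Nat.totient_prime_pow_succ Nat.prime_three, ← orderOf_units,
    ZMod.coe_unitOfCoprime, Nat.cast_ofNat, ord_two, mul_comm]

/-- the three properties follow from a power basis -/
theorem of_basis {K : Type} [Field K] [Finite K] [Algebra (ZMod 2) K] (ζ : K) (n : ℕ)
    (b : Module.Basis (Fin n) (ZMod 2) K) (hb : ∀ i, b i = ζ ^ (i : ℕ)) :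
    (∀ f : ℕ → ℤ, ∑ a ∈ range n, (f a : K) * ζ ^ a = 0 → ∀ a < n, (2 : ℤ) ∣ f a) ∧
    (∀ x : K, ∃ f : ℕ → ℕ, x = ∑ a ∈ range n, (f a : K) * ζ ^ a) ∧
    ∀ α : ℕ → Bool, ∃ Z : K, ∀ i < n,
      ∑ j ∈ range n, (Z * ζ ^ i) ^ 2 ^ j = cond (α i) 1 0 := by
  refine ⟨fun f hf a ha => ?_, fun x => ?_, fun α => ?_⟩
  · have h := Fintype.linearIndependent_iff.1 b.linearIndependent (fun i => (f i : ZMod 2))
      (by
        rw [← hf, sum_range]
        exact sum_congr rfl fun i _ => by rw [hb, Algebra.smul_def, map_intCast]) ⟨a, ha⟩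
    exact (ZMod.intCast_zmod_eq_zero_iff_dvd _ 2).1 h
  · refine ⟨fun a => if h : a < n then (b.repr x ⟨a, h⟩).val else 0, ?_⟩
    rw [sum_range]
    refine (b.sum_repr x).symm.trans (sum_congr rfl fun i _ => ?_)
    beta_reduce
    rw [dif_pos i.2, hb, Algebra.smul_def, ← map_natCast (algebraMap (ZMod 2) K),
      ZMod.natCast_zmod_val]
  · have : Module.Finite (ZMod 2) K := Module.Finite.of_basis b
    refine ⟨∑ k : Fin n, (cond (α k) 1 0 : ZMod 2) • b.traceDual k, fun i hi => ?_⟩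
    have h := FiniteField.algebraMap_trace_eq_sum_pow (ZMod 2) K
      ((∑ k : Fin n, (cond (α k) 1 0 : ZMod 2) • b.traceDual k) * ζ ^ i)
    rw [Module.finrank_eq_card_basis b, Fintype.card_fin, Nat.card_zmod] at h
    rw [← h, ← hb ⟨i, hi⟩, sum_mul, map_sum]
    simp only [smul_mul_assoc, map_smul, Module.Basis.trace_traceDual_mul, smul_eq_mul, mul_ite,
      mul_one, mul_zero, sum_ite_eq, mem_univ, if_true]
    cases α i <;> simp

end FldP

theorem fld : S_Fld := by
  rintro M ⟨j, rfl⟩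
  have : Fact (Irreducible (cyclotomic (3 ^ (j + 1)) (ZMod 2))) := ⟨FldP.irr j⟩
  let K := AdjoinRoot (cyclotomic (3 ^ (j + 1)) (ZMod 2))
  have hK : CharP K 2 := charP_of_injective_algebraMap (algebraMap (ZMod 2) K).injective 2
  let pb := AdjoinRoot.powerBasis (cyclotomic_ne_zero (3 ^ (j + 1)) (ZMod 2))
  have hd : pb.dim = 2 * 3 ^ j := by
    rw [AdjoinRoot.powerBasis_dim, natDegree_cyclotomic,
      Nat.totient_prime_pow_succ Nat.prime_three, mul_comm]
  have : Module.Finite (ZMod 2) K := pb.finite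
  have : Finite K := Module.finite_of_finite (ZMod 2)
  have h := FldP.of_basis (K := K) pb.gen pb.dim pb.basis pb.basis_eq_pow
  rw [hd] at h
  refine ⟨K, inferInstance, hK, pb.gen, ?_, h.1, h.2.1, h.2.2⟩
  have h0 := AdjoinRoot.aeval_eq (f := cyclotomic (3 ^ (j + 1)) (ZMod 2))
    (cyclotomic (3 ^ (j + 1)) (ZMod 2))
  rw [AdjoinRoot.mk_self] at h0
  have h1 : cyclotomic (3 ^ (j + 1)) (ZMod 2) = X ^ (2 * 3 ^ j) + X ^ 3 ^ j + 1 := by
    rw [cyclotomic_prime_pow_eq_geom_sum Nat.prime_three]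
    simp only [sum_range_succ, range_zero, sum_empty]
    ring
  have h2 : aeval pb.gen (X ^ (2 * 3 ^ j) + X ^ 3 ^ j + 1 : (ZMod 2)[X]) = 0 := by
    rw [← h1]
    exact h0
  simpa using h2

end Pool.Agent.P.MP_b0c4db_lc.Half
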