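import Pool.Agent.P.MP_b0c4db_lc.Half.Bas

/-! The honest table of a point. -/

namespace Pool.Agent.P.MP_b0c4db_lc.Half

open Finset Polynomial

namespace HonP

variable {K : Type} [Field K]

theorem sum_blocks (F : ℕ → K) (n D : ℕ) :
    ∑ a ∈ range (n * D), F a = ∑ b ∈ range n, ∑ i ∈ range D, F (b * D + i) := by
  induction n with
  | zero => simp
  | succ n ih => rw [add_one_mul, sum_range_add, ih, sum_range_succ]

theorem cd_inj {ζ : K} {s D : ℕ} (hD : 0 < D) (hI : Ind ζ (s * D)) {v v' : ℕ}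
    (hv : v < 4 ^ s) (hv' : v' < 4 ^ s) (h : cd ζ s D v 0 = cd ζ s D v' 0) : v = v' := by
  rw [four_eq] at hv hv'
  have h1 := hI (fun a => if D ∣ a then (dg 2 v (a / D) : ℤ) - dg 2 v' (a / D) else 0) (by
    rw [← mul_assoc, sum_blocks]
    refine Eq.trans (sum_congr rfl fun b _ => ?_) ((sum_sub_distrib _ _).trans (sub_eq_zero.2 h))
    rw [sum_eq_single 0 (fun i hi h0 => ?_) fun h0 => (h0 (mem_range.2 hD)).elim]
    · simp [Nat.mul_div_cancel _ hD, sub_mul, pow_mul']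
    · rw [if_neg, Int.cast_zero, zero_mul]
      rw [Nat.dvd_add_right (Dvd.intro_left b rfl)]
      exact Nat.not_dvd_of_pos_of_lt (Nat.pos_of_ne_zero h0) (mem_range.1 hi))
  rw [← val_dg hv, ← val_dg hv']
  refine sum_congr rfl fun b hb => ?_
  have h2 := h1 (b * D) (by
    rw [← mul_assoc]
    exact Nat.mul_lt_mul_of_pos_right (mem_range.1 hb) hD)
  simp only [if_pos (Dvd.intro_left b rfl), Nat.mul_div_cancel _ hD] at h2
  have h3 := dg_lt (B := 2) two_pos v b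
  have h4 := dg_lt (B := 2) two_pos v' b
  rw [show dg 2 v b = dg 2 v' b by omega]

theorem exists_fixed [CharP K 2] {ζ : K} {s D : ℕ} (hs : ∃ j, s = 3 ^ j) (hD : 0 < D)
    (hζ : ζ ^ (2 * (s * D)) + ζ ^ (s * D) + 1 = 0) (hI : Ind ζ (s * D)) :
    ∃ W : Finset K, #W = 4 ^ s ∧ (∀ x, x ∈ W ↔ x ^ 4 ^ s = x) ∧
      ∀ x ∈ W, ∃ v, cd ζ s D v 0 = x := by
  classical
  have h1 : 1 < 4 ^ s := by
    obtain ⟨j, rfl⟩ := hs
    exact Nat.one_lt_pow (by positivity) (by norm_num)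
  have hc : #((range (4 ^ s)).image fun v => cd ζ s D v 0) = 4 ^ s := by
    rw [card_image_of_injOn fun v hv v' hv' h =>
      cd_inj hD hI (by simpa using hv) (by simpa using hv') h, card_range]
  have h0 := FiniteField.X_pow_card_sub_X_ne_zero K h1
  have hm : ∀ x : K, x ∈ (X ^ 4 ^ s - X : K[X]).roots.toFinset ↔ x ^ 4 ^ s = x := fun x => by
    rw [Multiset.mem_toFinset, mem_roots h0, IsRoot, eval_sub, eval_pow, eval_X, sub_eq_zero]
  have he : (range (4 ^ s)).image (fun v => cd ζ s D v 0) =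
      (X ^ 4 ^ s - X : K[X]).roots.toFinset := by
    refine eq_of_subset_of_card_le (fun x hx => ?_) ?_
    · obtain ⟨v, -, rfl⟩ := mem_image.1 hx
      exact (hm _).2 (cd_fix hs hζ v 0)
    · rw [hc]
      exact (Multiset.toFinset_card_le _).trans
        ((card_roots' _).trans (FiniteField.X_pow_card_sub_X_natDegree_eq K h1).le)
  refine ⟨_, hc, fun x => he ▸ hm x, fun x hx => ?_⟩
  obtain ⟨v, -, h⟩ := mem_image.1 hx
  exact ⟨v, h⟩

theorem exists_pt {ζ : K} {s : ℕ} (hs : 0 < s) (D t : ℕ) (y : ℕ → K)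
    (hy : ∀ j, ∃ v, cd ζ s D v 0 = y j) :
    ∃ u < (4 ^ s) ^ (t + 1), ∀ j ≤ t, cd ζ s D u j = y j := by
  choose v hv using hy
  obtain ⟨u, h1, h2⟩ := exists_dg 2 (2 * s * (t + 1))
    (fun n => dg 2 (v (n / (2 * s))) (n % (2 * s))) fun _ _ => dg_lt two_pos _ _
  refine ⟨u, by rwa [four_eq, ← pow_mul], fun j hj => ?_⟩
  rw [← hv j]
  refine sum_congr rfl fun b hb => ?_
  have hb := mem_range.1 hb
  rw [h2 _ (by nlinarith), Nat.mul_add_div (by omega), Nat.div_eq_of_lt hb, Nat.mul_add_mod,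
    Nat.mod_eq_of_lt hb]
  simp

theorem exists_poly [CharP K 2] {ζ : K} {s D : ℕ} (hz : (ζ ^ D) ^ 4 ^ s = ζ ^ D) (f : ℕ → ℕ) :
    ∃ p : K[X], p.natDegree ≤ D ∧
      p.eval ζ = ∑ a ∈ range (2 * (s * D)), (f a : K) * ζ ^ a ∧
      ∀ w : K, w ^ 4 ^ s = w → p.eval w ^ 4 ^ s = p.eval w := by
  have : Fact (Nat.Prime 2) := ⟨Nat.prime_two⟩
  refine ⟨∑ i ∈ range D, C (∑ b ∈ range (2 * s), (f (b * D + i) : K) * (ζ ^ D) ^ b) * X ^ i,
    natDegree_sum_le_of_forall_le _ _ fun i hi =>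
      (natDegree_C_mul_X_pow_le _ _).trans (mem_range.1 hi).le, ?_, fun w hw => ?_⟩
  · rw [← mul_assoc, sum_blocks, sum_comm, eval_finsetSum]
    refine sum_congr rfl fun i _ => ?_
    rw [eval_mul, eval_C, eval_pow, eval_X, sum_mul]
    exact sum_congr rfl fun b _ => by ring
  · rw [eval_finsetSum, four_eq, sum_pow_char_pow, ← four_eq]
    refine sum_congr rfl fun i _ => ?_
    rw [eval_mul, eval_C, eval_pow, eval_X, mul_pow, fix_sum hz _ fun b => f (b * D + i),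
      ← pow_mul, mul_comm i, pow_mul, hw]

theorem coeff_pow [CharP K 2] (s : ℕ) (w : K) {i : ℕ} (hi : i < 4 ^ s) :
    ((X + C w) ^ (4 ^ s - 1)).coeff i = w ^ (4 ^ s - 1 - i) := by
  have : Fact (Nat.Prime 2) := ⟨Nat.prime_two⟩
  have h1 : (X + C w) ^ (4 ^ s - 1) =
      ∑ k ∈ range (4 ^ s), X ^ k * C w ^ (4 ^ s - 1 - k) := by
    refine mul_right_cancel₀ (monic_X_add_C w).ne_zero ?_
    rw [← pow_succ, Nat.sub_add_cancel (by omega), ← CharTwo.sub_eq_add, geom_sum₂_mul, four_eq,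
      sub_pow_char_pow]
  rw [h1, finsetSum_coeff]
  simp only [← C_pow, coeff_mul_C, coeff_X_pow, ite_mul, one_mul, zero_mul]
  rw [sum_ite_eq, if_pos (mem_range.2 hi)]

theorem interp [CharP K 2] {s : ℕ} (hs : 0 < s) {W : Finset K} (hc : #W = 4 ^ s)
    (hW : ∀ x ∈ W, x ^ 4 ^ s = x) (m : K[X]) (hm : m.natDegree < 4 ^ s) :
    ∑ w ∈ W, (1 + (X + C w) ^ (4 ^ s - 1)) * C (m.eval w) = m := by
  have : Fact (Nat.Prime 2) := ⟨Nat.prime_two⟩
  have h1 : 1 < 4 ^ s := Nat.one_lt_pow hs.ne' (by norm_num)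
  refine eq_of_natDegree_lt_card_of_eval_eq' _ _ W (fun x hx => ?_) ?_
  · rw [eval_finsetSum, sum_eq_single x (fun w hw hne => ?_) fun h => (h hx).elim]
    · simp [CharTwo.add_self_eq_zero, show 4 ^ s - 1 ≠ 0 by omega]
    · have h2 : x + w ≠ 0 := fun h => hne (by
        rw [← CharTwo.sub_eq_add, sub_eq_zero] at h
        exact h.symm)
      have h3 : (x + w) ^ (4 ^ s - 1) = 1 := by
        refine mul_right_cancel₀ h2 ?_
        rw [← pow_succ, Nat.sub_add_cancel h1.le, one_mul, four_eq, add_pow_char_pow, ← four_eq,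
          hW x hx, hW w hw]
      simp [h3, CharTwo.add_self_eq_zero]
  · rw [hc, max_lt_iff]
    refine ⟨lt_of_le_of_lt (natDegree_sum_le_of_forall_le (n := 4 ^ s - 1) _ _ fun w _ =>
      (natDegree_mul_C_le _ _).trans (natDegree_add_le_of_degree_le (by simp)
        (natDegree_pow_le.trans (by simp)))) (by omega), hm⟩

end HonP

open HonP in
theorem hon : S_Hon := by
  intro K _ _ ζ t s D h q hs hD hq hΔ hζ hI hsp U
  classical
  subst hq
  have s0 : 0 < s := by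
    obtain ⟨j, rfl⟩ := hs
    positivity
  obtain ⟨W, hc, hW, hv⟩ := exists_fixed hs hD hζ hI
  have hz : (ζ ^ D) ^ 4 ^ s = ζ ^ D :=
    fix_of_cube hs (by rw [← pow_mul, ← cube hζ]; congr 1; ring)
  have hp : ∀ j : ℕ, ∃ p : K[X], p.natDegree ≤ D ∧ p.eval ζ = U ^ h ^ j ∧
      ∀ w : K, w ^ 4 ^ s = w → p.eval w ^ 4 ^ s = p.eval w := fun j => by
    obtain ⟨f, hf⟩ := hsp (U ^ h ^ j)
    rw [hf]
    exact exists_poly hz f
  choose p p1 p2 p3 using hp
  have hu : ∀ w : K, ∃ u : ℕ, w ∈ W → u < (4 ^ s) ^ (t + 1) ∧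
      (∀ j < t, cd ζ s D u j = (p j).eval w) ∧ cd ζ s D u t = w := fun w => by
    by_cases hw : w ∈ W
    · obtain ⟨u, h1, h2⟩ := exists_pt (ζ := ζ) s0 D t
        (fun j => if j = t then w else (p j).eval w) fun j => by
          split_ifs
          · exact hv w hw
          · exact hv _ ((hW _).2 (p3 j w ((hW w).1 hw)))
      exact ⟨u, fun _ => ⟨h1, fun j hj => (h2 j hj.le).trans (if_neg hj.ne),
        (h2 t le_rfl).trans (if_pos rfl)⟩⟩
    · exact ⟨0, fun h => (hw h).elim⟩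
  choose u hu using hu
  have hinj : ∀ w ∈ W, ∀ w' ∈ W, u w = u w' → w = w' := fun w hw w' hw' e => by
    rw [← (hu w hw).2.2, e, (hu w' hw').2.2]
  have hmon : ∀ (κ : ℕ → ℕ), ∀ w ∈ W,
      mon t (cd ζ s D (u w)) κ = (∏ j ∈ range t, p j ^ κ j).eval w := fun κ w hw => by
    rw [eval_prod]
    exact prod_congr rfl fun j hj => by rw [(hu w hw).2.1 j (mem_range.1 hj), eval_pow]
  have hdeg : ∀ κ : ℕ → ℕ, (∀ j < t, κ j < 2 * h) →
      (∏ j ∈ range t, p j ^ κ j).natDegree ≤ 2 * t * h * D := fun κ hκ => by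
    refine (natDegree_prod_le _ _).trans ((sum_le_card_nsmul _ _ (2 * h * D) fun j hj =>
      natDegree_pow_le.trans (Nat.mul_le_mul (hκ j (mem_range.1 hj)).le (p1 j))).trans ?_)
    rw [card_range, smul_eq_mul]
    exact le_of_eq (by ring)
  have hint := fun κ hκ => interp s0 hc (fun x hx => (hW x).1 hx) _ ((hdeg κ hκ).trans_lt hΔ)
  refine ⟨W.image u, fun x hx => ?_, card_image_le.trans hc.le, fun κ hκ i h1 h2 => ?_,
    fun κ hκ _ => ?_⟩
  · obtain ⟨w, hw, rfl⟩ := mem_image.1 hx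
    exact mem_range.2 (hu w hw).1
  · have e := congrArg (coeff · i) (hint κ hκ)
    simp only [finsetSum_coeff, coeff_mul_C, coeff_add, coeff_pow s _ h2,
      coeff_eq_zero_of_natDegree_lt ((hdeg κ hκ).trans_lt h1), coeff_one,
      if_neg (show i ≠ 0 by omega), zero_add] at e
    rw [sum_image hinj, ← e]
    exact sum_congr rfl fun w hw => by rw [hmon κ w hw, (hu w hw).2.2, mul_comm]
  · have e := congrArg (eval ζ) (hint κ hκ)
    rw [eval_finsetSum] at e
    rw [LL, sum_image hinj, sum_singleton, ← mon_pow]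
    refine Eq.trans (sum_congr rfl fun w hw => ?_) (e.trans ?_)
    · rw [hmon κ w hw, (hu w hw).2.2]
      simp [gw]
    · rw [eval_prod]
      exact prod_congr rfl fun j _ => by rw [eval_pow, p2]

end Pool.Agent.P.MP_b0c4db_lc.Half
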