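import Pool.Agent.P.MP_b0c4db_lc.Half.Bas

/-! The product of the covers is read off a representation. -/

namespace Pool.Agent.P.MP_b0c4db_lc.Half

open Finset Polynomial

namespace LPP

variable {K : Type} [Field K]

/-- a product of polynomials in separate variables as a combination of monomials -/
theorem expand (t : ℕ) (p : ℕ → K[X]) (d : ℕ → ℕ) (hd : ∀ j, (p j).natDegree ≤ d j) :
    ∃ (I : Finset (Fin t → ℕ)) (c : (Fin t → ℕ) → K) (e : (Fin t → ℕ) → ℕ → ℕ),
      (∀ κ ∈ I, ∀ j < t, e κ j ≤ d j) ∧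
      ∀ y : ℕ → K, ∏ j ∈ range t, (p j).eval (y j) = ∑ κ ∈ I, c κ * mon t y (e κ) := by
  refine ⟨Fintype.piFinset fun j : Fin t => range (d j + 1), fun κ => ∏ j : Fin t, (p j).coeff (κ j),
    fun κ j => if h : j < t then κ ⟨j, h⟩ else 0, fun κ hκ j hj => ?_, fun y => ?_⟩
  · have := Fintype.mem_piFinset.1 hκ ⟨j, hj⟩
    simp only [dif_pos hj]
    exact Nat.lt_succ_iff.1 (mem_range.1 this)
  · rw [prod_range, prod_congr rfl fun (j : Fin t) _ =>
      eval_eq_sum_range' (Nat.lt_succ_of_le (hd j)) (y j), prod_univ_sum]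
    refine sum_congr rfl fun κ _ => ?_
    rw [prod_mul_distrib, mon, prod_range]
    congr 1
    exact prod_congr rfl fun j _ => by simp only [dif_pos j.2]

theorem pj_pow [CharP K 2] (ζ : K) (M : ℕ) {h : ℕ} (hh : ∃ e, h = 2 ^ e) (o : Oc) (j : ℕ) (U : K) :
    pj ζ M h o j (U ^ h ^ j) = pj ζ M h o 0 U ^ h ^ j := by
  have : Fact (Nat.Prime 2) := ⟨Nat.prime_two⟩
  obtain ⟨e, rfl⟩ := hh
  unfold pj
  rw [mul_pow, ← pow_mul ζ, pow_zero, mul_one, mul_one, ← pow_mul 2 e j, add_pow_char_pow,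
    add_pow_char_pow, mul_pow]
  cases o.2.2
  · simp
  · simp [pow_mul]

end LPP

theorem lp : S_LP := by
  intro K _ _ ζ t M h q Y A S o a hh hR ha
  have h0 : 0 < h := by
    obtain ⟨e, rfl⟩ := hh
    positivity
  obtain ⟨I, c, e, he, hI⟩ := LPP.expand t
    (fun j => (C (ζ ^ ((3 * M - 1) * o.2.1 * h ^ j)) *
      (X * X + X + C (cond o.2.2 (ζ ^ (M * h ^ j)) 0))) ^ dg h a j) (fun j => dg h a j * 2)
    (fun j => natDegree_pow_le_of_le _ (by compute_degree))
  have hI' : ∀ y : ℕ → K, ∏ j ∈ range t, pj ζ M h o j (y j) ^ dg h a j =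
      ∑ κ ∈ I, c κ * mon t y (e κ) := fun y => by
    rw [← hI y]
    exact prod_congr rfl fun j _ => by simp [pj]
  have h1 : ∀ κ ∈ I, LL ζ t q Y A (e κ) = ∑ P ∈ S, P ^ val t h (e κ) := fun κ hκ => by
    refine hR _ (fun j hj => ?_) ?_
    · have := he κ hκ j hj
      have := dg_lt h0 a j
      omega
    · have h2 : val t h (e κ) ≤ 2 * val t h (dg h a) := by
        unfold val
        rw [mul_sum]
        exact sum_le_sum fun j hj => by
          have := he κ hκ j (mem_range.1 hj)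
          nlinarith [Nat.zero_le (h ^ j)]
      rw [val_dg (by omega)] at h2
      omega
  calc LP ζ t M h q Y A o a = ∑ κ ∈ I, c κ * LL ζ t q Y A (e κ) := by
        simp only [LP, LL, hI', mul_sum]
        rw [sum_comm]
        exact sum_congr rfl fun κ _ => sum_congr rfl fun u _ => by ring
    _ = ∑ U ∈ S, ∑ κ ∈ I, c κ * mon t (fun j => U ^ h ^ j) (e κ) := by
        rw [sum_comm]
        exact sum_congr rfl fun κ hκ => by simp only [h1 κ hκ, mul_sum, mon_pow]
    _ = _ := sum_congr rfl fun U _ => by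
        rw [← hI']
        simp only [LPP.pj_pow ζ M hh]
        exact (mon_pow t h _ (dg h a)).trans (by rw [val_dg (by omega)])

end Pool.Agent.P.MP_b0c4db_lc.Half
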