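import Pool.Agent.P.MP_b0c4db_lc.Half.Bas
import Pool.Agent.P.MP_b0c4db_lc.Main

/-! The coefficients of the system modulo two are computed in polynomial time. -/

namespace Pool.Agent.P.MP_b0c4db_lc.Half.MainP

open Pool.Agent.Lib.helper21 Pool.Agent.Lib.helper26

variable {α : Type} [Enc α]

theorem toU_min (K x : ℕ) : toU K x = min x K := by
  simp only [toU, Nat.cast_lt, length_filter_lt]

theorem PT_capPow {B e K : α → ℕ} (hB : PT B) (he : PT e) (hK : PT K) :
    PT fun a => min (B a ^ e a) (K a) :=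
  (PT_toU hK (hB.natCast.intPow he)).of_eq fun a => by rw [← toU_min, Nat.cast_pow]

theorem PT_bdPow {B e K : α → ℕ} (hB : PT B) (he : PT e) (hK : PT K)
    (h : ∀ a, B a ^ e a ≤ K a) : PT fun a => B a ^ e a :=
  (PT_capPow hB he hK).of_eq fun a => min_eq_left (h a)

@[fun_prop] theorem PT_dg {B u j : α → ℕ} (hB : PT B) (hu : PT u) (hj : PT j) :
    PT fun a => dg (B a) (u a) (j a) := by
  refine (PT_mod (PT_div hu (PT_capPow hB hj hu.succ)) hB).of_eq fun a => ?_
  unfold dg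
  congr 1
  rcases le_total (B a ^ j a) (u a + 1) with h | h
  · rw [min_eq_left h]
  · rw [min_eq_right h, Nat.div_eq_of_lt (by omega), Nat.div_eq_of_lt (by omega)]

@[fun_prop] theorem PT_pm (t : ℕ) {h j : α → ℕ} (hh : PT h) (hj : PT j) :
    PT fun a => pm t (h a) (j a) := by
  have h1 : PT fun a => min (j a) t :=
    (hj.sub (hj.sub (PT.const t))).of_eq fun a => by omega
  exact PT_bdPow hh h1 (PT_pow hh.succ t) fun a =>
    (Nat.pow_le_pow_left (Nat.le_succ _) _).trans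
      (Nat.pow_le_pow_right (Nat.succ_pos _) (min_le_right _ _))

@[fun_prop] theorem PT_oc {g : α → List Oc} {T : α → ℕ} (hg : PT g) (hT : PT T) :
    PT fun a => oc (g a) (T a) := by
  unfold oc; fun_prop

@[fun_prop] theorem PT_red {M k b : α → ℕ} (hM : PT M) (hk : PT k) (hb : PT b) :
    PT fun a => red (M a) (k a) (b a) := by
  unfold red; fun_prop

@[fun_prop] theorem PT_mn {M k : α → ℕ} (hM : PT M) (hk : PT k) :
    PT fun a => mn (M a) (k a) := by
  unfold mn; fun_prop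

@[fun_prop] theorem PT_ad {M : α → ℕ} {u v : α → List ℕ} (hM : PT M) (hu : PT u) (hv : PT v) :
    PT fun a => ad (M a) (u a) (v a) := by
  unfold ad; fun_prop

@[fun_prop] theorem PT_ml {M : α → ℕ} {u v : α → List ℕ} (hM : PT M) (hu : PT u) (hv : PT v) :
    PT fun a => ml (M a) (u a) (v a) := by
  unfold ml; fun_prop

theorem sz_small (n : ℕ) (f : ℕ → ℕ) (hf : ∀ a, f a ≤ 1) :
    sz ((List.range n).map f) ≤ n * 4 + 1 := by
  have := sz_list_le ((List.range n).map f) 1 fun a ha => by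
    obtain ⟨b, _, rfl⟩ := List.mem_map.1 ha
    simpa using hf b
  simpa using this

theorem cond_le (b : Bool) : cond b 1 0 ≤ 1 := by cases b <;> simp

theorem sz_fold (M : ℕ) (L : List (List ℕ)) : ∀ w : List ℕ, sz w ≤ 2 * M * 4 + 1 →
    sz (L.foldl (ml M) w) ≤ 2 * M * 4 + 1 := by
  induction L with
  | nil => exact fun w h => h
  | cons x L ih => exact fun w _ => ih _ (sz_small _ _ fun a => by omega)

@[fun_prop] theorem PT_prd {M : α → ℕ} {L : α → List (List ℕ)} (hM : PT M) (hL : PT L) :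
    PT fun a => prd (M a) (L a) :=
  PT.foldl (f := fun a => ml (M a)) (by fun_prop) hL (by fun_prop) (fun a => 2 * M a * 4 + 1)
    (PT.bdNat (by fun_prop)) fun _ _ => sz_fold _ _ _ (sz_small _ _ fun _ => cond_le _)

@[fun_prop] theorem PT_pwr {M n : α → ℕ} {u : α → List ℕ} (hM : PT M) (hu : PT u) (hn : PT n) :
    PT fun a => pwr (M a) (u a) (n a) := by
  unfold pwr; fun_prop

@[fun_prop] theorem PT_el {s D u j : α → ℕ} (hs : PT s) (hD : PT D) (hu : PT u) (hj : PT j) :
    PT fun a => el (s a) (D a) (u a) (j a) := by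
  unfold el; fun_prop

@[fun_prop] theorem PT_vk (t : ℕ) {h k : α → ℕ} (hh : PT h) (hk : PT k) :
    PT fun a => vk t (h a) (k a) := by
  unfold vk; fun_prop

@[fun_prop] theorem PT_monL (t : ℕ) {s D u B k : α → ℕ} (hs : PT s) (hD : PT D) (hu : PT u)
    (hB : PT B) (hk : PT k) : PT fun a => monL t (s a) (D a) (u a) (B a) (k a) := by
  unfold monL; fun_prop

@[fun_prop] theorem PT_gL (t : ℕ) {s D q u : α → ℕ} (hs : PT s) (hD : PT D) (hq : PT q)
    (hu : PT u) : PT fun a => gL t (s a) (D a) (q a) (u a) := by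
  unfold gL; fun_prop

@[fun_prop] theorem PT_pjL (t : ℕ) {M h j : α → ℕ} {o : α → Oc} {y : α → List ℕ} (hM : PT M)
    (hh : PT h) (ho : PT o) (hj : PT j) (hy : PT y) :
    PT fun a => pjL t (M a) (h a) (o a) (j a) (y a) := by
  unfold pjL; fun_prop

@[fun_prop] theorem PT_lpL (t : ℕ) {s D h u k : α → ℕ} {o : α → Oc} (hs : PT s) (hD : PT D)
    (hh : PT h) (ho : PT o) (hu : PT u) (hk : PT k) :
    PT fun a => lpL t (s a) (D a) (h a) (o a) (u a) (k a) := by
  unfold lpL; fun_prop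

@[fun_prop] theorem PT_cf (t : ℕ) {s D h q m e T' k i T u : α → ℕ} {g : α → List Oc} (hs : PT s)
    (hD : PT D) (hh : PT h) (hq : PT q) (hm : PT m) (hg : PT g) (he : PT e) (hT' : PT T')
    (hk : PT k) (hi : PT i) (hT : PT T) (hu : PT u) :
    PT fun a => cf t (s a) (D a) (h a) (q a) (m a) (g a) (e a) (T' a) (k a) (i a) (T a) (u a) := by
  unfold cf; fun_prop

/-- the matrix of the system -/
def H2 (t s D h q m : ℕ) (g : List Oc) (c x : ℕ) : ℤ :=
  (((cf t s D h q m g (c / (2 * (s * D)) / q / (2 * h) ^ t / (g.length + 1 + m))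
    (c / (2 * (s * D)) / q / (2 * h) ^ t % (g.length + 1 + m))
    (c / (2 * (s * D)) / q % (2 * h) ^ t) (c / (2 * (s * D)) % q)
    (x / q ^ (t + 1)) (x % q ^ (t + 1))).getD (c % (2 * (s * D))) 0 : ℕ) : ℤ)

/-- the right side of the system -/
def R2 (t s D h q m : ℕ) (g : List Oc) (c : ℕ) : ℤ :=
  ind (decide (c / (2 * (s * D)) / q / (2 * h) ^ t / (g.length + 1 + m) = 3) &&
    decide (c % (2 * (s * D)) = 0))

/-- the number of congruences -/
def K2 (t s D h q m : ℕ) (g : List Oc) : ℕ :=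
  4 * (g.length + 1 + m) * (2 * h) ^ t * q * (2 * (s * D))

/-- the basis -/
def B2 (t s D h q m : ℕ) (g : List Oc) (W : ℕ) : List (List ℤ) :=
  bs ((g.length + 1) * q ^ (t + 1)) (K2 t s D h q m g) W 2 (H2 t s D h q m g)

/-- the target -/
def T2 (t s D h q m : ℕ) (g : List Oc) (W : ℕ) : List ℤ :=
  tg ((g.length + 1) * q ^ (t + 1)) (K2 t s D h q m g) W (R2 t s D h q m g)

@[fun_prop] theorem PT_H2 (t : ℕ) {s D h q m c x : α → ℕ} {g : α → List Oc} (hs : PT s)
    (hD : PT D) (hh : PT h) (hq : PT q) (hm : PT m) (hg : PT g) (hc : PT c) (hx : PT x) :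
    PT fun a => H2 t (s a) (D a) (h a) (q a) (m a) (g a) (c a) (x a) := by
  unfold H2; fun_prop

@[fun_prop] theorem PT_R2 (t : ℕ) {s D h q m c : α → ℕ} {g : α → List Oc} (hs : PT s)
    (hD : PT D) (hh : PT h) (hq : PT q) (hm : PT m) (hg : PT g) (hc : PT c) :
    PT fun a => R2 t (s a) (D a) (h a) (q a) (m a) (g a) (c a) := by
  unfold R2; fun_prop

@[fun_prop] theorem PT_K2 (t : ℕ) {s D h q m : α → ℕ} {g : α → List Oc} (hs : PT s)
    (hD : PT D) (hh : PT h) (hq : PT q) (hm : PT m) (hg : PT g) :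
    PT fun a => K2 t (s a) (D a) (h a) (q a) (m a) (g a) := by
  unfold K2; fun_prop

theorem PT_B2 (t : ℕ) {s D h q m W : α → ℕ} {g : α → List Oc} (hs : PT s)
    (hD : PT D) (hh : PT h) (hq : PT q) (hm : PT m) (hg : PT g) (hW : PT W) :
    PT fun a => B2 t (s a) (D a) (h a) (q a) (m a) (g a) (W a) := by
  unfold B2 bs be; fun_prop

theorem PT_T2 (t : ℕ) {s D h q m W : α → ℕ} {g : α → List Oc} (hs : PT s)
    (hD : PT D) (hh : PT h) (hq : PT q) (hm : PT m) (hg : PT g) (hW : PT W) :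
    PT fun a => T2 t (s a) (D a) (h a) (q a) (m a) (g a) (W a) := by
  unfold T2 tg; fun_prop

/-- the exponent of the least power of `B` above `n` -/
def ex (B n : ℕ) : ℕ := ((List.range n).filter fun j => decide ((B : ℤ) ^ j ≤ n)).length

@[fun_prop] theorem PT_ex (B : ℕ) {n : α → ℕ} (hn : PT n) : PT fun a => ex B (n a) := by
  unfold ex; fun_prop

theorem ex_spec {B : ℕ} (hB : 1 < B) (n : ℕ) : n < B ^ ex B n ∧ B ^ ex B n ≤ B * n + 1 := by
  rcases Nat.eq_zero_or_pos n with rfl | hn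
  · simp [ex]
  have e : (fun j => decide ((B : ℤ) ^ j ≤ n)) = fun j => decide (j < Nat.log B n + 1) := by
    funext j
    rw [decide_eq_decide, Nat.lt_succ_iff, Nat.le_log_iff_pow_le hB hn.ne']
    exact_mod_cast Iff.rfl
  have h1 := Nat.log_lt_self B hn.ne'
  rw [ex, e, length_filter_lt, min_eq_left h1]
  refine ⟨Nat.lt_pow_succ_log_self hB n, ?_⟩
  rw [pow_succ']
  exact (Nat.mul_le_mul_left _ (Nat.pow_log_le_self B hn.ne')).trans (Nat.le_succ _)

theorem PT_powEx {B : ℕ} (hB : 1 < B) {n : α → ℕ} (hn : PT n) : PT fun a => B ^ ex B (n a) :=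
  PT_bdPow (PT.const B) (PT_ex B hn) ((PT.const B).mul hn).succ fun _ => (ex_spec hB _).2

end Pool.Agent.P.MP_b0c4db_lc.Half.MainP
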