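import Pool.Agent.P.MP_b0c4db_lc.Half.Mach2

/-! Hardness of the closest vector problem within `n ^ c`, `c < 1 / 2`, from completeness and
soundness of the system modulo two. -/

namespace Pool.Agent.P.MP_b0c4db_lc.Half

namespace MainP

open Finset Pool.Agent.Lib.helper21 Pool.Agent.Lib.helper26

theorem fl_lt {x y X Y : ℕ} (hx : x < X) (hy : y < Y) : x * Y + y < X * Y :=
  calc x * Y + y < (x + 1) * Y := by rw [Nat.succ_mul]; omega
    _ ≤ X * Y := Nat.mul_le_mul_right _ hx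

theorem fl_div {y Y : ℕ} (x : ℕ) (hy : y < Y) : (x * Y + y) / Y = x := by
  rw [Nat.mul_comm, Nat.mul_add_div (by omega), Nat.div_eq_of_lt hy, Nat.add_zero]

theorem fl_mod {y Y : ℕ} (x : ℕ) (hy : y < Y) : (x * Y + y) % Y = y := by
  rw [Nat.mul_comm, Nat.mul_add_mod, Nat.mod_eq_of_lt hy]

theorem fl_split {c X Y : ℕ} (hc : c < X * Y) : c / Y < X ∧ c % Y < Y :=
  ⟨Nat.div_lt_of_lt_mul (by rwa [Nat.mul_comm]),
    Nat.mod_lt _ (Nat.pos_of_ne_zero fun h => by simp [h] at hc)⟩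

section

variable {t s D h q m : ℕ} {g : List Oc}

theorem sys_yes2 (W : ℕ) {μ : ℕ → ℕ → ℤ} (hμ : Sol t s D h q m g μ) :
    ∃ z, d2 (B2 t s D h q m g W) (T2 t s D h q m g W) z = nrm (g.length + 1) (q ^ (t + 1)) μ := by
  obtain ⟨z, hz⟩ := emb_yes (N := (g.length + 1) * q ^ (t + 1)) (K := K2 t s D h q m g) (W := W)
    (p := 2) (H := H2 t s D h q m g) (h := R2 t s D h q m g)
    (fun x => μ (x / q ^ (t + 1)) (x % q ^ (t + 1))) fun c hc => by
      obtain ⟨h1, h2⟩ := fl_split hc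
      obtain ⟨h3, h4⟩ := fl_split h1
      obtain ⟨h5, h6⟩ := fl_split h3
      obtain ⟨h7, h8⟩ := fl_split h5
      have := hμ _ h7 _ h8 _ h6 _ h4 _ h2
      rw [← sum_flat] at this
      exact this
  refine ⟨z, hz.trans ?_⟩
  unfold nrm
  rw [← sum_flat]

theorem sys_no2 {W : ℕ} (hW : 0 < W) (z : List ℤ)
    (hz : d2 (B2 t s D h q m g W) (T2 t s D h q m g W) z < W) :
    ∃ μ, Sol t s D h q m g μ ∧ nrm (g.length + 1) (q ^ (t + 1)) μ < W := by
  obtain ⟨h1, h2⟩ := emb_no (by exact_mod_cast hW) z hz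
  refine ⟨fun T u => z.getD (T * q ^ (t + 1) + u) 0, fun e he T' hT' k hk i hi a ha => ?_, ?_⟩
  · have := h1 _ (fl_lt (fl_lt (fl_lt (fl_lt he hT') hk) hi) ha)
    rw [← sum_flat]
    simp only [H2, R2, fl_div _ ha, fl_mod _ ha, fl_div _ hi, fl_mod _ hi, fl_div _ hk,
      fl_mod _ hk, fl_div _ hT', fl_mod _ hT', Nat.div_add_mod'] at this ⊢
    exact this
  · unfold nrm
    rw [← sum_flat]
    simpa only [Nat.div_add_mod'] using h2

end

/-- the list of occurrences -/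
def occ (l : List (List (ℕ × Bool))) : List Oc :=
  (List.range l.length).flatMap fun k => (l.getD k []).map fun o => (k, o)

theorem sat_occ (l : List (List (ℕ × Bool))) :
    (∃ v : ℕ → Bool, ∀ c ∈ l, ∃ o ∈ c, v o.1 = o.2) ↔ Sat2 l.length (occ l) := by
  refine exists_congr fun v => ⟨fun h k hk => ?_, fun h c hc => ?_⟩
  · obtain ⟨o, h1, h2⟩ := h l[k] (List.getElem_mem hk)
    refine ⟨(k, o), List.mem_flatMap.2 ⟨k, List.mem_range.2 hk, List.mem_map.2 ⟨o, ?_, rfl⟩⟩,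
      rfl, h2⟩
    rwa [List.getD_eq_getElem _ _ hk]
  · obtain ⟨k, hk, rfl⟩ := List.getElem_of_mem hc
    obtain ⟨o, h1, h2, h3⟩ := h k hk
    obtain ⟨k', _, h4⟩ := List.mem_flatMap.1 h1
    obtain ⟨o', h5, rfl⟩ := List.mem_map.1 h4
    obtain rfl : k' = k := h2
    rw [List.getD_eq_getElem _ _ hk] at h5
    exact ⟨o', h5, h3⟩

def qD (g : List Oc) : ℕ := 3 ^ ex 3 (g.map fun o => o.2.1).sum

def qX (t m : ℕ) (g : List Oc) : ℕ :=
  4 * t * qD g + 8 * (g.length + 1 + m) + qD g + 3 * (t + 7) + 2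

def qb (t m : ℕ) (g : List Oc) : ℕ := ex 2 (qX t m g)

def qs (t m : ℕ) (g : List Oc) : ℕ := 3 ^ ex 3 ((t + 7) * qb t m g)

def qv (t m : ℕ) (g : List Oc) : ℕ := 2 ^ qs t m g

def qq (t m : ℕ) (g : List Oc) : ℕ := qv t m g * qv t m g

def qh (t m : ℕ) (g : List Oc) : ℕ := 2 ^ (2 * qs t m g - qb t m g)

def qr (t m : ℕ) (g : List Oc) : ℕ := (qh t m g ^ t - 1) / (2 * (g.length + 1))

def qW (t m : ℕ) (g : List Oc) : ℕ := (qr t m g + 1) * (qq t m g - 2 * t * qh t m g * qD g)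

/-- the closest vector instance -/
def ins (t m : ℕ) (g : List Oc) : List (List ℤ) × List ℤ × ℕ :=
  (B2 t (qs t m g) (qD g) (qh t m g) (qq t m g) m g (qW t m g),
    T2 t (qs t m g) (qD g) (qh t m g) (qq t m g) m g (qW t m g), (g.length + 1) * qv t m g)

section

variable {t m : ℕ} {g : List Oc}

theorem qX_lt : qX t m g < 2 ^ qb t m g := (ex_spec one_lt_two _).1

theorem qs_gt : (t + 7) * qb t m g < qs t m g := (ex_spec (by norm_num) _).1

theorem qs_le : qs t m g ≤ 3 * ((t + 7) * qb t m g) + 1 := (ex_spec (by norm_num) _).2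

theorem qq_eq : qq t m g = 2 ^ (2 * qs t m g) := by
  rw [qq, qv, ← pow_add, two_mul]

theorem qh_mul : qh t m g * 2 ^ qb t m g = qq t m g := by
  have := qs_gt (t := t) (m := m) (g := g)
  rw [qq_eq, qh, ← pow_add, Nat.sub_add_cancel (by nlinarith)]

theorem qh_pos : 0 < qh t m g := by unfold qh; positivity

theorem qv_pos : 0 < qv t m g := by unfold qv; positivity

theorem q_del : 2 * (2 * t * qh t m g * qD g) < qq t m g := by
  have h1 := qX_lt (t := t) (m := m) (g := g)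
  have h2 : 4 * t * qD g < 2 ^ qb t m g := by unfold qX at h1; omega
  rw [← qh_mul]
  calc _ = qh t m g * (4 * t * qD g) := by ring
    _ < _ := Nat.mul_lt_mul_of_pos_left h2 qh_pos

theorem q_par : Par t (qs t m g) (qD g) (qh t m g) (qq t m g) g := by
  refine ⟨⟨_, rfl⟩, ⟨_, rfl⟩, ⟨_, rfl⟩, by rw [qq_eq, four_eq], q_del, fun o ho => ?_⟩
  exact (List.single_le_sum (l := g.map fun o => o.2.1) (fun _ _ => Nat.zero_le _) _
    (List.mem_map_of_mem ho)).trans_lt (ex_spec (B := 3) (by norm_num) _).1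

theorem qW_pos : 0 < qW t m g :=
  Nat.mul_pos (Nat.succ_pos _) (by have := q_del (t := t) (m := m) (g := g); omega)

theorem ins_basis : IsBasis (ins t m g).1 (ins t m g).2.1 := by
  simp only [ins, B2, T2]
  exact isBasis_bs (W := qW t m g) (p := 2) (by exact_mod_cast qW_pos.ne') two_ne_zero

theorem ins_yes (hy : S_Yes2) (h : Sat2 m g) :
    ∃ z, d2 (ins t m g).1 (ins t m g).2.1 z ≤ ((ins t m g).2.2 : ℤ) ^ 2 := by
  obtain ⟨μ, h1, h2⟩ := hy t _ _ _ _ m g q_par h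
  obtain ⟨z, hz⟩ := sys_yes2 (qW t m g) h1
  refine ⟨z, hz.trans_le (h2.trans ?_)⟩
  have : (g.length + 1) * qq t m g ≤ ((g.length + 1) * qv t m g) ^ 2 := by
    rw [mul_pow, qq, ← sq]
    exact Nat.mul_le_mul_right _ (Nat.le_self_pow two_ne_zero _)
  exact_mod_cast this

theorem ins_no (hn : S_No2) (z : List ℤ) (hz : d2 (ins t m g).1 (ins t m g).2.1 z < qW t m g) :
    Sat2 m g := by
  obtain ⟨μ, h1, h2⟩ := sys_no2 qW_pos z hz
  refine hn t _ _ _ _ m (qr t m g) g q_par ?_ μ h1 h2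
  have h3 := Nat.mul_div_le (qh t m g ^ t - 1) (2 * (g.length + 1))
  have h4 : 0 < qh t m g ^ t := pow_pos qh_pos _
  rw [← mul_assoc, qr]
  omega

theorem ins_rank : 0 < (ins t m g).1.length ∧
    (ins t m g).1.length ≤ (2 ^ qb t m g) ^ 8 * (qv t m g ^ (t + 1)) ^ 2 := by
  have h1 := qX_lt (t := t) (m := m) (g := g)
  have h2 := qs_le (t := t) (m := m) (g := g)
  have h3 := qh_mul (t := t) (m := m) (g := g)
  have h4 : qb t m g < 2 ^ qb t m g := Nat.lt_two_pow_self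
  have h5 := qv_pos (t := t) (m := m) (g := g)
  have h6 : (qv t m g ^ (t + 1)) ^ 2 = qq t m g ^ t * qq t m g := by
    rw [← pow_succ, qq, mul_pow, sq]
  simp only [ins, B2, bs_length, K2]
  refine ⟨Nat.add_pos_left (Nat.mul_pos (Nat.succ_pos _) (pow_pos (Nat.mul_pos h5 h5) _)) _, ?_⟩
  rw [h6, pow_succ (qq t m g) t]
  unfold qX at h1
  generalize 2 ^ qb t m g = u at *
  have a1 : 8 * (g.length + 1 + m) ≤ u := by omega
  have a2 : qD g ≤ u := by omega
  have a3 : qs t m g ≤ u * u := by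
    have : 3 * (t + 7) + 1 ≤ u := by omega
    nlinarith
  have a4 : (2 * qh t m g) ^ t ≤ qq t m g ^ t :=
    Nat.pow_le_pow_left (by rw [← h3, mul_comm]; exact Nat.mul_le_mul_left _ (by omega)) _
  have a5 : 2 ≤ u := by omega
  have a6 : g.length + 1 ≤ u ^ 4 := (by omega : _ ≤ u).trans (Nat.le_self_pow (by norm_num) _)
  have a7 : 2 * u ^ 4 ≤ u ^ 8 := by
    rw [show u ^ 8 = u ^ 4 * u ^ 4 by ring]
    exact Nat.mul_le_mul_right _ (a5.trans (Nat.le_self_pow (by norm_num) _))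
  calc _ = (g.length + 1) * (qq t m g ^ t * qq t m g) +
        8 * (g.length + 1 + m) * (2 * qh t m g) ^ t * qq t m g * (qs t m g * qD g) := by ring
    _ ≤ u ^ 4 * (qq t m g ^ t * qq t m g) + u * qq t m g ^ t * qq t m g * (u * u * u) := by gcongr
    _ = 2 * u ^ 4 * (qq t m g ^ t * qq t m g) := by ring
    _ ≤ _ := Nat.mul_le_mul_right _ a7

theorem qW_gt : ((2 ^ qb t m g) ^ 5 * qv t m g ^ t) ^ 2 < qW t m g := by
  have h1 := qX_lt (t := t) (m := m) (g := g)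
  have h2 := qs_gt (t := t) (m := m) (g := g)
  have h3 := qh_mul (t := t) (m := m) (g := g)
  have h4 := q_del (t := t) (m := m) (g := g)
  have h5 : (2 ^ qb t m g) ^ (t + 11) ≤ qq t m g := by
    rw [qq_eq, ← pow_mul]
    exact Nat.pow_le_pow_right two_pos (by nlinarith)
  have h6 : 0 < qh t m g ^ t := pow_pos qh_pos _
  have h7 : qh t m g ^ t ≤ (qr t m g + 1) * (2 * (g.length + 1)) := by
    have := Nat.lt_div_mul_add (a := qh t m g ^ t - 1) (b := 2 * (g.length + 1)) (by omega)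
    rw [Nat.succ_mul, qr]
    omega
  have h8 : ((2 ^ qb t m g) ^ 5 * qv t m g ^ t) ^ 2 = (2 ^ qb t m g) ^ 10 * qq t m g ^ t := by
    rw [qq, mul_pow (qv t m g)]; ring
  have h9 : 0 < 2 ^ qb t m g := by positivity
  rw [h8, qW]
  unfold qX at h1
  generalize 2 ^ qb t m g = u at *
  have a1 : 4 * (g.length + 1) ≤ u := by omega
  have a2 : qq t m g < 2 * (qq t m g - 2 * t * qh t m g * qD g) := by omega
  generalize qq t m g - 2 * t * qh t m g * qD g = r at *
  refine Nat.lt_of_mul_lt_mul_right (a := u ^ (t + 1)) ?_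
  calc _ = qq t m g ^ t * u ^ (t + 11) := by ring
    _ ≤ qq t m g ^ t * qq t m g := Nat.mul_le_mul_left _ h5
    _ = qh t m g ^ t * u ^ t * qq t m g := by rw [← mul_pow, h3]
    _ < qh t m g ^ t * u ^ t * (2 * r) :=
      Nat.mul_lt_mul_of_pos_left a2 (Nat.mul_pos h6 (pow_pos h9 _))
    _ ≤ (qr t m g + 1) * (2 * (g.length + 1)) * u ^ t * (2 * r) := by gcongr
    _ = (qr t m g + 1) * r * (u ^ t * (4 * (g.length + 1))) := by ring
    _ ≤ _ := by rw [pow_succ]; gcongr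

theorem len_le : g.length + 1 ≤ 2 ^ qb t m g := by
  have h1 := qX_lt (t := t) (m := m) (g := g)
  unfold qX at h1
  omega

end

theorem gap2 (c : ℝ) (hc : c < 1 / 2) : ∃ t : ℕ, ∀ u v n r : ℕ, 0 < u → 0 < v → 0 < n → r ≤ u →
    n ≤ u ^ 8 * (v ^ (t + 1)) ^ 2 →
      (n : ℝ) ^ c * ((r * v : ℕ) : ℝ) ≤ ((u ^ 5 * v ^ t : ℕ) : ℝ) := by
  obtain ⟨b, h0, h1, h2⟩ : ∃ b : ℝ, 0 ≤ b ∧ c ≤ b ∧ b < 1 / 2 :=
    ⟨max c 0, le_max_right _ _, le_max_left _ _, max_lt hc (by norm_num)⟩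
  obtain ⟨t, ht⟩ := exists_nat_ge (2 / (1 - 2 * b))
  rw [div_le_iff₀ (by linarith)] at ht
  refine ⟨t, fun u v n r hu hv hn hr h => ?_⟩
  have hu' : (1 : ℝ) ≤ u := by exact_mod_cast hu
  have hv' : (1 : ℝ) ≤ v := by exact_mod_cast hv
  have hn' : (1 : ℝ) ≤ n := by exact_mod_cast hn
  have hr' : (r : ℝ) ≤ u := by exact_mod_cast hr
  have h' : (n : ℝ) ≤ u ^ 8 * (v ^ (t + 1)) ^ 2 := by exact_mod_cast h
  push_cast
  have h3 : ((u : ℝ) ^ 8) ^ b ≤ u ^ 4 := by
    rw [← Real.rpow_natCast, ← Real.rpow_mul (by linarith), ← Real.rpow_natCast]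
    exact Real.rpow_le_rpow_of_exponent_le hu' (by push_cast; linarith)
  have h4 : (((v : ℝ) ^ (t + 1)) ^ 2) ^ b * v ≤ v ^ t := by
    rw [← pow_mul, ← Real.rpow_natCast, ← Real.rpow_mul (by linarith),
      ← Real.rpow_add_one (by linarith), ← Real.rpow_natCast]
    exact Real.rpow_le_rpow_of_exponent_le hv' (by push_cast; nlinarith)
  calc (n : ℝ) ^ c * (r * v) ≤ n ^ b * (u * v) := by
        gcongr
    _ ≤ (u ^ 8 * (v ^ (t + 1)) ^ 2) ^ b * (u * v) := by gcongr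
    _ = (u ^ 8) ^ b * u * (((v ^ (t + 1)) ^ 2) ^ b * v) := by
        rw [Real.mul_rpow (by positivity) (by positivity)]; ring
    _ ≤ u ^ 4 * u * v ^ t := by gcongr
    _ = _ := by ring

section

variable {α : Type} [Enc α] (t : ℕ) {m : α → ℕ} {g : α → List Oc}

theorem PT_par (hm : PT m) (hg : PT g) :
    (PT fun a => ins t (m a) (g a)) ∧ PT fun a => qW t (m a) (g a) := by
  have hD : PT fun a => qD (g a) := PT_powEx (by norm_num) (by fun_prop)
  have hX : PT fun a => qX t (m a) (g a) := by unfold qX; fun_prop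
  have hb : PT fun a => qb t (m a) (g a) := PT_ex 2 hX
  have hu : PT fun a => 2 ^ qb t (m a) (g a) := PT_powEx one_lt_two hX
  have hs : PT fun a => qs t (m a) (g a) :=
    PT_powEx (by norm_num) ((PT.const (t + 7)).mul hb)
  have hv : PT fun a => qv t (m a) (g a) :=
    PT_bdPow (PT.const 2) hs ((PT_pow hu (3 * (t + 7))).mul (PT.const 2)) fun a => by
      rw [← pow_mul, ← pow_succ]
      exact Nat.pow_le_pow_right two_pos (qs_le.trans_eq (by ring))
  have hq : PT fun a => qq t (m a) (g a) := hv.mul hv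
  have hh : PT fun a => qh t (m a) (g a) :=
    PT_bdPow (PT.const 2) (((PT.const 2).mul hs).sub hb) hq fun a => by
      rw [qq_eq]
      exact Nat.pow_le_pow_right two_pos (Nat.sub_le _ _)
  have hW : PT fun a => qW t (m a) (g a) :=
    (PT_div ((PT_pow hh t).sub (PT.const 1)) ((PT.const 2).mul hg.length.succ)).succ.mul
      (hq.sub (((PT.const (2 * t)).mul hh).mul hD))
  exact ⟨(PT_B2 t hs hD hh hq hm hg hW).pair ((PT_T2 t hs hD hh hq hm hg hW).pair
    (hg.length.succ.mul hv)), hW⟩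

end

theorem pack2 (hy : S_Yes2) (hn : S_No2) (c : ℝ) (hc : c < 1 / 2) (L : List Bool → Bool)
    (hL : L ∈ N68a2faeb.NP) :
    ∃ (f : List Bool → List (List ℤ) × List ℤ × ℕ) (T w : List Bool → ℕ), PT f ∧ PT T ∧ ∀ x,
      IsBasis (f x).1 (f x).2.1 ∧ 0 < (f x).2.2 ∧
      (L x = true → ∃ z, d2 (f x).1 (f x).2.1 z ≤ ((f x).2.2 : ℤ) ^ 2) ∧
      (∀ z, d2 (f x).1 (f x).2.1 z < T x → L x = true) ∧
      ((f x).1.length : ℝ) ^ c * ((f x).2.2 : ℝ) ≤ (w x : ℝ) ∧ w x ^ 2 < T x := by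
  obtain ⟨l, hl, hS⟩ := Lib.helper77.sat_hard L hL
  obtain ⟨t, ht⟩ := gap2 c hc
  have hg : PT fun x => occ (l x) := by unfold occ; fun_prop
  obtain ⟨h1, h2⟩ := PT_par t hl.length hg
  refine ⟨_, _, fun x => (2 ^ qb t (l x).length (occ (l x))) ^ 5 *
    qv t (l x).length (occ (l x)) ^ t, h1, h2, fun x => ⟨ins_basis,
      Nat.mul_pos (Nat.succ_pos _) qv_pos, fun h => ins_yes hy ((sat_occ _).1 ((hS x).1 h)),
      fun z h => (hS x).2 ((sat_occ _).2 (ins_no hn z h)), ?_, qW_gt⟩⟩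
  exact ht _ _ _ _ (by positivity) qv_pos ins_rank.1 len_le ins_rank.2

end MainP

open Pool.Agent.Lib.helper21 in
theorem main2 (hy : S_Yes2) (hn : S_No2) (c : ℝ) (hc : c < 1 / 2) :
    Hard fun n => (n : ℝ) ^ c := by
  intro L hL
  obtain ⟨f, T, w, hf, hT, h⟩ := MainP.pack2 hy hn c hc L hL
  have hf' : PT fun a : List Bool × List ℤ => f a.1 := by fun_prop
  refine ⟨f, fun a => decide (d2 (f a.1).1 (f a.1).2.1 a.2 < T a.1), poly_f hf,
    poly_g ((PT_d2 hf'.fst hf'.snd.fst (PT.snd PT.id)).intLt (by fun_prop)), fun x => ?_⟩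
  obtain ⟨h1, h2, h3, h4, h5, h6⟩ := h x
  have h6 : (w x : ℝ) ^ 2 < ((T x : ℤ) : ℝ) := by exact_mod_cast h6
  have h7 : (0 : ℝ) ≤ ((f x).1.length : ℝ) ^ c := by positivity
  have h9 : L x = true → ∃ z, dst (f x).1 (f x).2.1 z ≤ (f x).2.2 := fun h => by
    obtain ⟨z, hz⟩ := h3 h
    refine ⟨z, ?_⟩
    rw [dst_eq]
    exact Real.sqrt_le_iff.2 ⟨by positivity, by exact_mod_cast hz⟩
  refine ⟨h1, h2, h9, fun h z => ?_, fun z hz => ?_⟩
  · rw [dst_eq]
    refine h5.trans_lt (Real.lt_sqrt_of_sq_lt (h6.trans_le ?_))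
    exact_mod_cast not_lt.1 fun h' => by simpa [h] using h4 z h'
  · cases h : L x with
    | false => exact decide_eq_false fun h' => by simpa [h] using h4 z h'
    | true =>
      obtain ⟨y, hy⟩ := h9 h
      have := ((hz y).trans (mul_le_mul_of_nonneg_left hy h7)).trans h5
      rw [dst_eq] at this
      have := (Real.sqrt_le_iff.1 this).2.trans_lt h6
      exact decide_eq_true (by exact_mod_cast this)

end Pool.Agent.P.MP_b0c4db_lc.Half
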