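import Pool.Agent.P.MP_b0c4db_lc.Half.Main2

/-! The same reduction, with the factor `max 1 (n ^ c)`: the instances have positive rank. -/

namespace Pool.Agent.P.MP_b0c4db_lc.Half

open Pool.Agent.Lib.helper21 Pool.Agent.Lib.helper26

theorem max_le_rpow {c : ℝ} {n : ℕ} (hn : 0 < n) : max 1 ((n : ℝ) ^ c) ≤ (n : ℝ) ^ max c 0 := by
  have hn' : (1 : ℝ) ≤ n := by exact_mod_cast hn
  exact max_le (Real.one_le_rpow hn' (le_max_right _ _))
    (Real.rpow_le_rpow_of_exponent_le hn' (le_max_left _ _))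

open MainP in
theorem pack3 (hy : S_Yes2) (hn : S_No2) (c : ℝ) (hc : c < 1 / 2) (L : List Bool → Bool)
    (hL : L ∈ N68a2faeb.NP) :
    ∃ (f : List Bool → List (List ℤ) × List ℤ × ℕ) (T w : List Bool → ℕ), PT f ∧ PT T ∧ ∀ x,
      IsBasis (f x).1 (f x).2.1 ∧ 0 < (f x).2.2 ∧
      (L x = true → ∃ z, d2 (f x).1 (f x).2.1 z ≤ ((f x).2.2 : ℤ) ^ 2) ∧
      (∀ z, d2 (f x).1 (f x).2.1 z < T x → L x = true) ∧
      max 1 (((f x).1.length : ℝ) ^ c) * ((f x).2.2 : ℝ) ≤ (w x : ℝ) ∧ w x ^ 2 < T x := by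
  obtain ⟨l, hl, hS⟩ := Lib.helper77.sat_hard L hL
  obtain ⟨t, ht⟩ := gap2 (max c 0) (max_lt hc (by norm_num))
  have hg : PT fun x => occ (l x) := by unfold occ; fun_prop
  obtain ⟨h1, h2⟩ := PT_par t hl.length hg
  refine ⟨_, _, fun x => (2 ^ qb t (l x).length (occ (l x))) ^ 5 *
    qv t (l x).length (occ (l x)) ^ t, h1, h2, fun x => ⟨ins_basis,
      Nat.mul_pos (Nat.succ_pos _) qv_pos, fun h => ins_yes hy ((sat_occ _).1 ((hS x).1 h)),
      fun z h => (hS x).2 ((sat_occ _).2 (ins_no hn z h)), ?_, qW_gt⟩⟩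
  exact (mul_le_mul_of_nonneg_right (max_le_rpow ins_rank.1) (Nat.cast_nonneg _)).trans
    (ht _ _ _ _ (by positivity) qv_pos ins_rank.1 len_le ins_rank.2)

theorem main3 (hy : S_Yes2) (hn : S_No2) (c : ℝ) (hc : c < 1 / 2) :
    Hard fun n => max 1 ((n : ℝ) ^ c) := by
  intro L hL
  obtain ⟨f, T, w, hf, hT, h⟩ := pack3 hy hn c hc L hL
  have hf' : PT fun a : List Bool × List ℤ => f a.1 := by fun_prop
  refine ⟨f, fun a => decide (d2 (f a.1).1 (f a.1).2.1 a.2 < T a.1), poly_f hf,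
    poly_g ((PT_d2 hf'.fst hf'.snd.fst (PT.snd PT.id)).intLt (by fun_prop)), fun x => ?_⟩
  obtain ⟨h1, h2, h3, h4, h5, h6⟩ := h x
  have h6 : (w x : ℝ) ^ 2 < ((T x : ℤ) : ℝ) := by exact_mod_cast h6
  have h7 : (0 : ℝ) ≤ max 1 (((f x).1.length : ℝ) ^ c) := zero_le_one.trans (le_max_left _ _)
  have h9 : L x = true → ∃ z, dst (f x).1 (f x).2.1 z ≤ (f x).2.2 := fun h => by
    obtain ⟨z, hz⟩ := h3 h
    refine ⟨z, ?_⟩
    rw [dst_eq]
    exact Real.sqrt_le_iff.2 ⟨by positivity, by exact_mod_cast hz⟩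
  refine ⟨h1, h2, h9, fun h z => ?_, fun z hz => ?_⟩
  · rw [dst_eq]
    refine h5.trans_lt (Real.lt_sqrt_of_sq_lt (h6.trans_le ?_))
    exact_mod_cast not_lt.1 fun h' => by simpa [h] using h4 z h'
  · cases h : L x with
    | false => exact decide_eq_false fun h' => by simpa [h] using h4 z h'
    | true =>
      obtain ⟨y, hy⟩ := h9 h
      have := ((hz y).trans (mul_le_mul_of_nonneg_left hy h7)).trans h5
      rw [dst_eq] at this
      have := (Real.sqrt_le_iff.1 this).2.trans_lt h6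
      exact decide_eq_true (by exact_mod_cast this)

end Pool.Agent.P.MP_b0c4db_lc.Half
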