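import Pool.Agent.P.MP_b0c4db_lc.Half.Tab

/-! Soundness of the system. -/

namespace Pool.Agent.P.MP_b0c4db_lc.Half

open Finset Polynomial

namespace NoP

variable {K : Type} [Field K]

/-- equal power sums give equal multiplicities -/
theorem vdm [DecidableEq K] {α β : Type} (X : Finset α) (X' : Finset β) (f : α → K) (f' : β → K)
    (A : ℕ) (hA : #X + #X' ≤ A) (h : ∀ a < A, ∑ x ∈ X, f x ^ a = ∑ x ∈ X', f' x ^ a) (P : K) :
    ∑ x ∈ X, (if f x = P then (1 : K) else 0) = ∑ x ∈ X', if f' x = P then 1 else 0 := by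
  let U := X.image f ∪ X'.image f'
  have h1 : ∀ x ∈ X, f x ∈ U := fun x hx => mem_union_left _ (mem_image_of_mem _ hx)
  have h2 : ∀ x ∈ X', f' x ∈ U := fun x hx => mem_union_right _ (mem_image_of_mem _ hx)
  by_cases hP : P ∈ U
  · have h3 : #U ≤ A := (card_union_le _ _).trans
      ((Nat.add_le_add card_image_le card_image_le).trans hA)
    have h4 : (Lagrange.basis U id P).natDegree < A := by
      have := card_pos.2 ⟨P, hP⟩
      rw [Lagrange.natDegree_basis (Set.injOn_id _) hP]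
      omega
    have h5 : ∀ Q ∈ U, (if Q = P then (1 : K) else 0) =
        ∑ a ∈ range A, (Lagrange.basis U id P).coeff a * Q ^ a := fun Q hQ => by
      rw [← eval_eq_sum_range' h4]
      split_ifs with e
      · rw [e]
        exact (Lagrange.eval_basis_self (v := id) (Set.injOn_id _) hP).symm
      · exact (Lagrange.eval_basis_of_ne (v := id) (Ne.symm e) hQ).symm
    rw [sum_congr rfl fun x hx => h5 _ (h1 x hx), sum_congr rfl fun x hx => h5 _ (h2 x hx),
      sum_comm, sum_comm (s := X')]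
    refine sum_congr rfl fun a ha => ?_
    rw [← mul_sum, ← mul_sum, h a (mem_range.1 ha)]
  · rw [sum_eq_zero fun x hx => if_neg fun e : f x = P => hP (e ▸ h1 x hx),
      sum_eq_zero fun x hx => if_neg fun e : f' x = P => hP (e ▸ h2 x hx)]

/-- a permutation of a set of odd size has an orbit of odd size -/
theorem odd_orbit {α : Type} (σ : α → α) (hσ : Function.Injective σ) (S : Finset α)
    (hS : ∀ x ∈ S, σ x ∈ S) (ho : ¬ 2 ∣ #S) : ∃ x ∈ S, ∃ d, Odd d ∧ σ^[d] x = x := by
  classical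
  have : Fact (Nat.Prime 2) := ⟨Nat.prime_two⟩
  let f : S → S := fun x => ⟨σ x, hS x x.2⟩
  have hf : Function.Injective f := fun x y e => Subtype.ext (hσ (congrArg Subtype.val e))
  let π : Equiv.Perm S := Equiv.ofBijective f hf.bijective_of_finite
  obtain ⟨k, d, hd, e⟩ := Nat.exists_eq_two_pow_mul_odd (orderOf_pos π).ne'
  obtain ⟨x, hx⟩ := Equiv.Perm.exists_fixed_point_of_prime (p := 2) (n := k) (σ := π ^ d)
    (by simpa using ho) (by rw [← pow_mul, mul_comm, ← e, pow_orderOf_eq_one])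
  refine ⟨x, x.2, d, hd, ?_⟩
  rw [Equiv.Perm.coe_pow] at hx
  have h : Function.Semiconj (Subtype.val : S → α) π σ := fun _ => rfl
  rw [← h.iterate_right d x, hx]

/-- the trace -/
def tr (n : ℕ) (u : K) : K := ∑ j ∈ range (2 * n), u ^ 2 ^ j

variable [CharP K 2]

theorem tr_add (n : ℕ) (u v : K) : tr n (u + v) = tr n u + tr n v := by
  have : Fact (Nat.Prime 2) := ⟨Nat.prime_two⟩
  simp only [tr, add_pow_char_pow, sum_add_distrib]

theorem tr_as {n : ℕ} {u : K} (h : u ^ 4 ^ n = u) : tr n (u * u + u) = 0 := by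
  rw [tr_add, ← CharTwo.sub_eq_add, tr, tr, ← sum_sub_distrib,
    sum_congr rfl fun j _ => by rw [← sq, ← pow_mul, ← pow_succ'],
    sum_range_sub fun j => u ^ 2 ^ j, ← four_eq, h]
  simp

theorem tr_om {ω : K} (h : ω ^ 2 + ω + 1 = 0) (n : ℕ) : ω ^ 4 ^ n = ω ∧ tr n ω = n := by
  induction n with
  | zero => simp [tr]
  | succ n ih =>
    refine ⟨?_, ?_⟩
    · rw [pow_succ, pow_mul, ih.1]
      linear_combination (ω ^ 2 - ω) * h
    · have := ih.2
      unfold tr at this ⊢
      rw [mul_add, mul_one, sum_range_succ, sum_range_succ, this, pow_succ 2, pow_mul ω,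
        ← four_eq, ih.1, Nat.cast_succ]
      linear_combination h - CharTwo.two_eq_zero (R := K)

theorem odd_cast {n : ℕ} (h : Odd n) : (n : K) = 1 := by
  obtain ⟨c, rfl⟩ := h
  rw [Nat.cast_add_one, (CharP.cast_eq_zero_iff K 2 _).2 (dvd_mul_right 2 c), zero_add]

/-- the Frobenius map -/
noncomputable def fr (n : ℕ) : K →+* K :=
  haveI : Fact (Nat.Prime 2) := ⟨Nat.prime_two⟩
  iterateFrobenius K 2 (2 * n)

theorem fr_eq (n : ℕ) (x : K) : fr n x = x ^ 4 ^ n := by
  rw [four_eq]
  rfl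

theorem fr_inj (n : ℕ) : Function.Injective (fr n : K → K) := RingHom.injective (fr (K := K) n)

theorem stab {ξ : K} {t h q ρ n : ℕ} {Y : ℕ → ℕ → K} {A : Finset ℕ} {S : Finset K} (hh : 0 < h)
    (hR : Rep ξ t h q Y A S) (hS : #S ≤ ρ) (hρ : 2 * ρ < h ^ t) (hξ : fr n ξ = ξ)
    (hY : ∀ u j, fr n (Y u j) = Y u j) : ∀ x ∈ S, fr n x ∈ S := by
  classical
  intro x hx
  have h1 := vdm S S id (fr n) (h ^ t) (by omega) (fun a ha => by
    have e := hR (dg h a) (fun j _ => by have := dg_lt hh a j; omega) (by rwa [val_dg ha])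
    rw [val_dg ha] at e
    have e2 := congrArg (fr n) e
    simp only [LL, gw, mon, map_sum, map_mul, map_add, map_pow, map_one, map_prod, hξ, hY] at e2
    exact e.symm.trans e2) (fr n x)
  simp only [id, (fr_inj n).eq_iff, sum_ite_eq', hx, if_true] at h1
  by_contra h2
  simp [h2] at h1

end NoP

open NoP

theorem no2 (h1 : S_Br1) (h2 : S_LP) : S_No2 := by
  rintro t s D h q m ρ g ⟨hs, hD, hh, hq, hΔ, -⟩ hρ μ hμ hn
  classical
  let K := AlgebraicClosure (ZMod 2)
  have hs0 : 0 < s := by obtain ⟨j, rfl⟩ := hs; positivity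
  have hD0 : 0 < D := by obtain ⟨j, rfl⟩ := hD; positivity
  have hh0 : 0 < h := by obtain ⟨j, rfl⟩ := hh; positivity
  have hM : ∃ j, s * D = 3 ^ j := by
    obtain ⟨j, rfl⟩ := hs
    obtain ⟨i, rfl⟩ := hD
    exact ⟨j + i, (pow_add _ _ _).symm⟩
  obtain ⟨ω, hω⟩ := IsAlgClosed.exists_root (X ^ 2 + X + 1 : K[X]) (by
    rw [show (X ^ 2 + X + 1 : K[X]).degree = 2 by compute_degree!]
    decide)
  have hω : ω ^ 2 + ω + 1 = 0 := by simpa using hω
  obtain ⟨ζ, hζ⟩ := IsAlgClosed.exists_pow_nat_eq ω (Nat.mul_pos hs0 hD0)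
  have hr : ζ ^ (2 * (s * D)) + ζ ^ (s * D) + 1 = 0 := by rw [mul_comm 2, pow_mul, hζ, hω]
  have hF := h1 K ζ t s D h q m g hs0 hD0 hh0 (by omega) hr μ hμ
  generalize hA : (fun T => (range (q ^ (t + 1))).filter fun u => Odd (μ T u)) = A at hF
  obtain ⟨hF1, hF2, hF3⟩ := hF
  have hρ' : 2 * ρ < h ^ t := lt_of_le_of_lt (by nlinarith) hρ
  have hT : ∀ T, ∃ S : Finset K, T ≤ g.length → #S ≤ ρ ∧ Rep ζ t h q (cd ζ s D) (A T) S := by
    intro T
    by_cases hT : T ≤ g.length
    · obtain ⟨S, hS⟩ := tab K ζ t h q (2 * t * h * D) ρ (2 * s) (cd ζ s D) (A T) (by omega)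
        (hq.trans (four_eq s)) hh0 hΔ hρ' (fun u => hq ▸ cd_fix hs hr u t) (hF1 T hT).1
        (hF1 T hT).2 (by
          refine Int.ofNat_lt.1 (lt_of_le_of_lt ?_ hn)
          refine le_trans ?_ (single_le_sum (f := fun T => ∑ u ∈ range (q ^ (t + 1)), μ T u ^ 2)
            (fun _ _ => sum_nonneg fun _ _ => sq_nonneg _) (mem_range.2 (Nat.lt_succ_of_le hT)))
          rw [← hA, card_filter]
          push_cast
          refine sum_le_sum fun u _ => ?_
          split_ifs with e
          · have : μ T u ≠ 0 := fun e' => by simp [e'] at e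
            exact (one_le_sq_iff_one_le_abs _).2 (Int.one_le_abs this)
          · exact sq_nonneg _)
      exact ⟨S, fun _ => hS⟩
    · exact ⟨∅, fun h => absurd h hT⟩
  choose S hS using hT
  have hz : ∀ d, fr (s * D * d) ζ = ζ := fun d => by
    rw [fr_eq, pow_mul]
    induction d with
    | zero => simp
    | succ d ih => rw [pow_succ, pow_mul, ih, fix_of_cube hM (cube hr)]
  have hst : ∀ d, ∀ T ≤ g.length, ∀ x ∈ S T, fr (s * D * d) x ∈ S T := fun d T hT =>
    stab hh0 (hS T hT).2 (hS T hT).1 hρ' (hz d) fun u j => by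
      rw [fr_eq]
      exact cd_fix' (by rw [← fr_eq, hz]) s D u j
  have h0 : (#(S g.length) : K) = 1 := by
    rw [← hF3, (hS _ le_rfl).2 _ (fun _ _ => by omega) (by simp only [val]; simp; omega)]
    simp [val]
  obtain ⟨P, hP, d, hd, hPd⟩ := odd_orbit (fr (s * D * 1)) (fr_inj _) _ (hst 1 _ le_rfl)
    fun e => by rw [(CharP.cast_eq_zero_iff K 2 _).2 e] at h0; exact zero_ne_one h0
  have hPd : fr (s * D * d) P = P := by
    rw [show ⇑(fr (s * D * 1)) = fun x : K => x ^ 4 ^ (s * D) from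
      funext fun x => by rw [fr_eq, mul_one], pow_iterate, ← pow_mul] at hPd
    rwa [fr_eq]
  have hodd : ((s * D * d : ℕ) : K) = 1 := by
    obtain ⟨j, hj⟩ := hM
    exact odd_cast (by rw [hj]; exact (Odd.pow (by decide)).mul hd)
  refine ⟨fun i => decide (tr (s * D * d) (P * ζ ^ i) = 1), fun k hk => ?_⟩
  let I := (range g.length).filter fun T => (oc g T).1 = k
  have hI : ∀ T ∈ I, T ≤ g.length := fun T hT => (mem_range.1 (mem_filter.1 hT).1).le
  have h3 := vdm (S g.length) (I.sigma S) id (fun x => pj ζ (s * D) h (oc g x.1) 0 x.2)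
    ((g.length + 1) * ρ) (by
      have e1 := (hS _ le_rfl).1
      have e2 := sum_le_card_nsmul I (fun T => #(S T)) ρ fun T hT => (hS T (hI T hT)).1
      have e3 : #I * ρ ≤ g.length * ρ :=
        Nat.mul_le_mul_right _ ((card_filter_le _ _).trans (card_range _).le)
      rw [card_sigma, add_mul]
      rw [smul_eq_mul] at e2
      omega) (fun a ha => by
      have e := (hS _ le_rfl).2 (dg h a) (fun j _ => by have := dg_lt hh0 a j; omega)
        (by rw [val_dg (by omega)]; omega)
      rw [val_dg (by omega), hF2 k hk a (by omega)] at e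
      rw [sum_sigma]
      exact e.symm.trans (sum_congr rfl fun T hT =>
        h2 K ζ t _ h q _ _ _ _ a hh (hS T (hI T hT)).2 (by omega))) P
  simp only [id, sum_ite_eq', hP, if_true, sum_sigma] at h3
  obtain ⟨T, hT, h4⟩ := exists_ne_zero_of_sum_ne_zero (h3.symm.trans_ne one_ne_zero)
  obtain ⟨U, hU, h5⟩ := exists_ne_zero_of_sum_ne_zero h4
  have h5 : pj ζ (s * D) h (oc g T) 0 U = P := by_contra fun e => h5 (if_neg e)
  have hT1 := mem_range.1 (mem_filter.1 hT).1
  have hz0 : ζ ≠ 0 := fun e => by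
    have := cube hr
    rw [e, zero_pow (by positivity)] at this
    exact zero_ne_one this
  have h6 : ∀ V, pj ζ (s * D) h (oc g T) 0 V = P → V = U ∨ V = U + 1 := fun V hV => by
    have e := mul_left_cancel₀ (pow_ne_zero _ hz0) (hV.trans h5.symm)
    have e2 : (V + U) * (V + (U + 1)) = 0 := by
      linear_combination e + (U * U + U + U * V) * CharTwo.two_eq_zero (R := K)
    exact (mul_eq_zero.1 e2).imp CharTwo.add_eq_zero.1 CharTwo.add_eq_zero.1
  have h7 : fr (s * D * d) U = U := by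
    by_contra e
    have e1 : pj ζ (s * D) h (oc g T) 0 (fr (s * D * d) U) = P := by
      rw [← hPd, ← h5]
      unfold pj
      cases (oc g T).2.2 <;> simp [hz]
    refine h4 ?_
    rw [← sum_subset (s₁ := {fr (s * D * d) U, U}) (by
      simp [insert_subset_iff, hU, hst d T hT1.le U hU]) fun V _ hV => if_neg fun e2 => hV (by
        rcases h6 V e2 with e3 | e3
        · simp [e3]
        · rw [e3, ← (h6 _ e1).resolve_left e]
          simp), sum_pair e, if_pos e1, if_pos h5, CharTwo.add_self_eq_zero]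
  refine ⟨oc g T, ?_, (mem_filter.1 hT).2, ?_⟩
  · rw [oc, List.getD_eq_getElem _ _ hT1]
    exact List.getElem_mem _
  · have e : P * ζ ^ (oc g T).2.1 = U * U + U + cond (oc g T).2.2 ω 0 := by
      rw [← h5, pj, pow_zero, mul_one, mul_one, hζ, mul_right_comm, ← pow_add, ← Nat.succ_mul,
        Nat.succ_eq_add_one, Nat.sub_add_cancel (by have := Nat.mul_pos hs0 hD0; omega), pow_mul,
        cube hr, one_pow, one_mul]
    beta_reduce
    rw [e, tr_add, tr_as (by rwa [← fr_eq]), zero_add]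
    cases (oc g T).2.2
    · simp [tr]
    · simp [(tr_om hω _).2, hodd]

end Pool.Agent.P.MP_b0c4db_lc.Half
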