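import Pool.Agent.P.MP_b0c4db_lc.Half.Bas

/-! A recurrent sequence compatible with squaring is a power sum. -/

namespace Pool.Agent.P.MP_b0c4db_lc.Half

open Finset Polynomial

variable {K : Type} [Field K]

/-- the functional with given values on the powers -/
noncomputable def fn (lam : ℕ → K) : K[X] →ₗ[K] K := (basisMonomials K).constr K lam

theorem fn_mono (lam : ℕ → K) (a : ℕ) (x : K) : fn lam (C x * X ^ a) = x * lam a := by
  have h : fn lam (basisMonomials K a) = lam a := (basisMonomials K).constr_basis K lam a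
  rw [coe_basisMonomials] at h
  rw [← smul_eq_C_mul, map_smul, ← monomial_one_right_eq_X_pow, h, smul_eq_mul]

theorem fn_mul (lam : ℕ → K) (c g : K[X]) (A : ℕ) (hg : g.natDegree + c.natDegree < A)
    (hrec : ∀ b, b + c.natDegree < A →
      ∑ a ∈ range (c.natDegree + 1), c.coeff a * lam (a + b) = 0) : fn lam (c * g) = 0 := by
  rw [g.as_sum_range_C_mul_X_pow, mul_sum, map_sum]
  refine sum_eq_zero fun b hb => ?_
  have hb := mem_range.1 hb
  conv_lhs => rw [c.as_sum_range_C_mul_X_pow, sum_mul, map_sum]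
  rw [← mul_zero (g.coeff b), ← hrec b (by omega), mul_sum]
  refine sum_congr rfl fun a _ => ?_
  rw [show C (c.coeff a) * X ^ a * (C (g.coeff b) * X ^ b) =
    C (g.coeff b * c.coeff a) * X ^ (a + b) by rw [C_mul]; ring, fn_mono, mul_assoc]

theorem seq_monic [CharP K 2] [IsAlgClosed K] (lam : ℕ → K) (c : K[X]) (hc : c.Monic) (A : ℕ)
    (hA : 2 * c.natDegree < A)
    (hrec : ∀ b, b + c.natDegree < A →
      ∑ a ∈ range (c.natDegree + 1), c.coeff a * lam (a + b) = 0)
    (hfr : ∀ a, 2 * a < A → lam (a + a) = lam a ^ 2) :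
    ∃ S : Finset K, #S ≤ c.natDegree ∧ ∀ a < A, lam a = ∑ P ∈ S, P ^ a := by
  classical
  let L : K[X] →ₗ[K] K := fn lam ∘ₗ modByMonicHom c
  have hL : ∀ p, L p = fn lam (p %ₘ c) := fun p => rfl
  have h1 : ∀ p, c ∣ p → L p = 0 := fun p hp => by
    rw [hL, (modByMonic_eq_zero_iff_dvd hc).2 hp, map_zero]
  have h2 : ∀ p : K[X], p.natDegree < A → L p = fn lam p := fun p hp => by
    conv_rhs => rw [← modByMonic_add_div p c, map_add, fn_mul lam c _ A (by
      rw [natDegree_divByMonic p hc]; omega) hrec, add_zero]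
    exact hL p
  have h3 : ∀ p, L (p ^ 2) = L p ^ 2 := fun p => by
    have e1 : L (p ^ 2) = L ((p %ₘ c) ^ 2) := by
      rw [← sub_eq_zero, ← map_sub]
      refine h1 _ ⟨(p /ₘ c) * (p + p %ₘ c), ?_⟩
      have := modByMonic_add_div p c
      linear_combination (-(p + p %ₘ c)) * this
    have e2 : (p %ₘ c).natDegree ≤ c.natDegree := natDegree_modByMonic_le p hc
    rw [e1, h2 _ (natDegree_pow_le.trans_lt (by omega)), hL,
      (p %ₘ c).as_sum_range_C_mul_X_pow' (Nat.lt_succ_of_le e2), CharTwo.sum_sq, map_sum, map_sum,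
      CharTwo.sum_sq]
    refine sum_congr rfl fun a ha => ?_
    have ha := mem_range.1 ha
    rw [mul_pow, ← C_pow, ← pow_mul, mul_two, fn_mono, fn_mono, hfr a (by omega), mul_pow]
  have h4 : ∀ k p, L (p ^ 2 ^ k) = L p ^ 2 ^ k := fun k p => by
    induction k with
    | zero => simp
    | succ k ih => rw [pow_succ, pow_mul, pow_mul, h3, ih]
  have h5 : ∀ p : K[X], (∀ P ∈ c.roots.toFinset, p.eval P = 0) → L p = 0 := fun p hp => by
    have e1 : c ∣ p ^ Multiset.card c.roots := by
      conv_lhs => rw [(IsAlgClosed.splits c).eq_prod_roots_of_monic hc]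
      rw [← Multiset.prod_replicate, ← Multiset.map_const']
      exact Multiset.prod_dvd_prod_of_dvd _ _ fun P hP =>
        dvd_iff_isRoot.2 (hp P (Multiset.mem_toFinset.2 hP))
    have := h1 _ (e1.trans (pow_dvd_pow p (Nat.lt_two_pow_self (n := Multiset.card c.roots)).le))
    rw [h4] at this
    exact pow_eq_zero_iff (by positivity) |>.1 this
  let R := c.roots.toFinset
  let e : K → K[X] := Lagrange.basis R id
  have h6 : ∀ P ∈ R, ∀ Q ∈ R, (e P).eval Q = if P = Q then 1 else 0 := fun P hP Q hQ => by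
    split_ifs with h
    · subst h
      exact Lagrange.eval_basis_self (v := id) (Set.injOn_id _) hP
    · exact Lagrange.eval_basis_of_ne (v := id) h hQ
  have h7 : ∀ P ∈ R, L (e P) ≠ 1 → L (e P) = 0 := fun P hP h => by
    have := h5 (e P ^ 2 - e P) fun Q hQ => by
      rw [eval_sub, eval_pow, h6 P hP Q hQ]
      split_ifs <;> simp
    rw [map_sub, h3] at this
    have e1 : L (e P) * (L (e P) - 1) = 0 := by linear_combination this
    exact (mul_eq_zero.1 e1).resolve_right (sub_ne_zero.2 h)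
  refine ⟨R.filter fun P => L (e P) = 1, (card_filter_le _ _).trans
    ((Multiset.toFinset_card_le _).trans (card_roots' c)), fun a ha => ?_⟩
  have e1 := h5 (X ^ a - ∑ P ∈ R, C (P ^ a) * e P) fun Q hQ => by
    rw [eval_sub, eval_finsetSum, sum_eq_single Q]
    · simp [h6 Q hQ Q hQ]
    · intro P hP h
      simp [h6 P hP Q hQ, h]
    · exact fun h => absurd hQ h
  rw [map_sub, h2 _ (by simpa using ha), map_sum, ← one_mul (X ^ a), ← C_1, fn_mono, one_mul,
    sub_eq_zero] at e1
  rw [e1, sum_filter]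
  refine sum_congr rfl fun P hP => ?_
  rw [← smul_eq_C_mul, map_smul, smul_eq_mul]
  split_ifs with h
  · rw [h, mul_one]
  · rw [h7 P hP h, mul_zero]

theorem seq [CharP K 2] [IsAlgClosed K] (lam : ℕ → K) (c : K[X]) (hc : c ≠ 0) (A : ℕ)
    (hA : 2 * c.natDegree < A)
    (hrec : ∀ b, b + c.natDegree < A →
      ∑ a ∈ range (c.natDegree + 1), c.coeff a * lam (a + b) = 0)
    (hfr : ∀ a, 2 * a < A → lam (a + a) = lam a ^ 2) :
    ∃ S : Finset K, #S ≤ c.natDegree ∧ ∀ a < A, lam a = ∑ P ∈ S, P ^ a := by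
  have h := natDegree_mul_leadingCoeff_inv c hc
  rw [← h] at hA hrec ⊢
  refine seq_monic lam _ (monic_mul_leadingCoeff_inv hc) A hA (fun b hb => ?_) hfr
  rw [← zero_mul c.leadingCoeff⁻¹, ← hrec b hb, sum_mul]
  refine sum_congr rfl fun a _ => ?_
  rw [coeff_mul_C]
  ring

end Pool.Agent.P.MP_b0c4db_lc.Half
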