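import Pool.Agent.P.MP_b0c4db_lc.Stm

/-! The system of congruences modulo two attached to a formula in conjunctive normal form. -/

namespace Pool.Agent.P.MP_b0c4db_lc.Half

open Finset

/-- an occurrence of a literal: clause, variable, sign -/
abbrev Oc : Type := ℕ × ℕ × Bool

def Sat2 (m : ℕ) (g : List Oc) : Prop :=
  ∃ α : ℕ → Bool, ∀ k < m, ∃ o ∈ g, o.1 = k ∧ α o.2.1 = o.2.2

def oc (g : List Oc) (T : ℕ) : Oc := g.getD T (0, 0, false)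

/-- digit `j` of `u` in base `B` -/
def dg (B u j : ℕ) : ℕ := u / B ^ j % B

/-! Arithmetic modulo `2` and `X ^ (2 M) + X ^ M + 1` on lists of coefficients. -/

/-- coordinate `a` of `X ^ k` -/
def red (M k a : ℕ) : ℕ :=
  cond (decide (k % (3 * M) = a) || decide (k % (3 * M) = 2 * M + a % M)) 1 0

def mn (M k : ℕ) : List ℕ := (List.range (2 * M)).map fun a => red M k a

def ad (M : ℕ) (u v : List ℕ) : List ℕ :=
  (List.range (2 * M)).map fun a => u.getD a 0 + v.getD a 0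

def ml (M : ℕ) (u v : List ℕ) : List ℕ :=
  (List.range (2 * M)).map fun c => ((List.range (2 * M)).map fun a =>
    ((List.range (2 * M)).map fun b => u.getD a 0 * v.getD b 0 * red M (a + b) c).sum).sum % 2

def prd (M : ℕ) (L : List (List ℕ)) : List ℕ := L.foldl (ml M) (mn M 0)

def pwr (M : ℕ) (u : List ℕ) (n : ℕ) : List ℕ := prd M (List.replicate n u)

/-- coordinate `j` of the point with number `u` -/
def el (s D u j : ℕ) : List ℕ :=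
  (List.range (2 * (s * D))).map fun a => cond (decide (a % D = 0)) (dg 2 u (2 * s * j + a / D)) 0

def pm (t h j : ℕ) : ℕ := h ^ min j t

def vk (t h k : ℕ) : ℕ := ((List.range t).map fun j => dg (2 * h) k j * pm t h j).sum

def monL (t s D u B k : ℕ) : List ℕ :=
  prd (s * D) ((List.range t).map fun j => pwr (s * D) (el s D u j) (dg B k j))

def gL (t s D q u : ℕ) : List ℕ :=
  ad (s * D) (mn (s * D) 0) (pwr (s * D) (ad (s * D) (mn (s * D) 1) (el s D u t)) (q - 1))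

def pjL (t M h : ℕ) (o : Oc) (j : ℕ) (y : List ℕ) : List ℕ :=
  ml M (mn M ((3 * M - 1) * o.2.1 * pm t h j))
    (ad M (ad M (ml M y y) y) (cond o.2.2 (mn M (M * pm t h j)) []))

def lpL (t s D h : ℕ) (o : Oc) (u k : ℕ) : List ℕ :=
  prd (s * D) ((List.range t).map fun j =>
    pwr (s * D) (pjL t (s * D) h o j (el s D u j)) (dg h k j))

/-- coefficient of the unknown `(T, u)` in the equation `(e, T', k, i)` -/
def cf (t s D h q m : ℕ) (g : List Oc) (e T' k i T u : ℕ) : List ℕ :=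
  cond (decide (e = 0))
    (cond (decide (T = T') && decide (2 * t * h * D < i))
      (ml (s * D) (monL t s D u (2 * h) k) (pwr (s * D) (el s D u t) (q - 1 - i))) [])
    (cond (decide (e = 1))
      (cond (decide (T = T') && decide (vk t h k < h ^ t))
        (ml (s * D) (gL t s D q u)
          (ad (s * D) (monL t s D u (2 * h) k) (monL t s D u h (vk t h k)))) [])
      (cond (decide (e = 2))
        (cond (decide (T' < m) && decide (2 * k < h ^ t))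
          (cond (decide (T = g.length)) (ml (s * D) (gL t s D q u) (monL t s D u h k))
            (cond (decide ((oc g T).1 = T'))
              (ml (s * D) (gL t s D q u) (lpL t s D h (oc g T) u k)) [])) [])
        (cond (decide (T = g.length)) (gL t s D q u) [])))

/-- solutions of the system -/
def Sol (t s D h q m : ℕ) (g : List Oc) (μ : ℕ → ℕ → ℤ) : Prop :=
  ∀ e < 4, ∀ T' < g.length + 1 + m, ∀ k < (2 * h) ^ t, ∀ i < q, ∀ a < 2 * (s * D),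
    (2 : ℤ) ∣ ∑ T ∈ range (g.length + 1), ∑ u ∈ range (q ^ (t + 1)),
      (((cf t s D h q m g e T' k i T u).getD a 0 : ℕ) : ℤ) * μ T u -
        ind (decide (e = 3) && decide (a = 0))

def nrm (n Q : ℕ) (μ : ℕ → ℕ → ℤ) : ℤ := ∑ T ∈ range n, ∑ u ∈ range Q, μ T u ^ 2

/-- admissible parameters -/
def Par (t s D h q : ℕ) (g : List Oc) : Prop :=
  (∃ j, s = 3 ^ j) ∧ (∃ j, D = 3 ^ j) ∧ (∃ e, h = 2 ^ e) ∧ q = 4 ^ s ∧
    2 * (2 * t * h * D) < q ∧ ∀ o ∈ g, o.2.1 < D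

/-- completeness -/
def S_Yes2 : Prop := ∀ (t s D h q m : ℕ) (g : List Oc), Par t s D h q g → Sat2 m g →
  ∃ μ, Sol t s D h q m g μ ∧ nrm (g.length + 1) (q ^ (t + 1)) μ ≤ ((g.length + 1) * q : ℕ)

/-- soundness -/
def S_No2 : Prop := ∀ (t s D h q m ρ : ℕ) (g : List Oc), Par t s D h q g →
  2 * ((g.length + 1) * ρ) < h ^ t → ∀ μ, Sol t s D h q m g μ →
  nrm (g.length + 1) (q ^ (t + 1)) μ < ((ρ + 1) * (q - 2 * t * h * D) : ℕ) → Sat2 m g

/-! The same system over a field. -/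

section

variable {K : Type} [Field K]

def ev (ζ : K) (M : ℕ) (u : List ℕ) : K := ∑ a ∈ range (2 * M), ((u.getD a 0 : ℕ) : K) * ζ ^ a

def mon (t : ℕ) (y : ℕ → K) (κ : ℕ → ℕ) : K := ∏ j ∈ range t, y j ^ κ j

def val (t h : ℕ) (κ : ℕ → ℕ) : ℕ := ∑ j ∈ range t, κ j * h ^ j

def gw (ξ : K) (q : ℕ) (w : K) : K := 1 + (ξ + w) ^ (q - 1)

/-- coordinate `j` of the point with number `u` -/
def cd (ζ : K) (s D u j : ℕ) : K :=
  ∑ b ∈ range (2 * s), ((dg 2 u (2 * s * j + b) : ℕ) : K) * (ζ ^ D) ^ b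

def pj (ζ : K) (M h : ℕ) (o : Oc) (j : ℕ) (y : K) : K :=
  ζ ^ ((3 * M - 1) * o.2.1 * h ^ j) * (y * y + y + cond o.2.2 (ζ ^ (M * h ^ j)) 0)

def Deg (t h q Δ : ℕ) (Y : ℕ → ℕ → K) (A : Finset ℕ) : Prop :=
  ∀ κ : ℕ → ℕ, (∀ j < t, κ j < 2 * h) → ∀ i, Δ < i → i < q →
    ∑ u ∈ A, mon t (Y u) κ * Y u t ^ (q - 1 - i) = 0

def LL (ξ : K) (t q : ℕ) (Y : ℕ → ℕ → K) (A : Finset ℕ) (κ : ℕ → ℕ) : K :=
  ∑ u ∈ A, gw ξ q (Y u t) * mon t (Y u) κ

def PV (ξ : K) (t h q : ℕ) (Y : ℕ → ℕ → K) (A : Finset ℕ) : Prop :=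
  ∀ κ : ℕ → ℕ, (∀ j < t, κ j < 2 * h) → val t h κ < h ^ t →
    LL ξ t q Y A κ = LL ξ t q Y A (dg h (val t h κ))

/-- the table `A` represents the set `S` -/
def Rep (ξ : K) (t h q : ℕ) (Y : ℕ → ℕ → K) (A : Finset ℕ) (S : Finset K) : Prop :=
  ∀ κ : ℕ → ℕ, (∀ j < t, κ j < 2 * h) → val t h κ < h ^ t →
    LL ξ t q Y A κ = ∑ P ∈ S, P ^ val t h κ

def LP (ζ : K) (t M h q : ℕ) (Y : ℕ → ℕ → K) (A : Finset ℕ) (o : Oc) (a : ℕ) : K :=
  ∑ u ∈ A, gw ζ q (Y u t) * ∏ j ∈ range t, pj ζ M h o j (Y u j) ^ dg h a j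

def FSol (ζ : K) (t s D h q m : ℕ) (g : List Oc) (A : ℕ → Finset ℕ) : Prop :=
  (∀ T ≤ g.length, Deg t h q (2 * t * h * D) (cd ζ s D) (A T) ∧ PV ζ t h q (cd ζ s D) (A T)) ∧
  (∀ k < m, ∀ a, 2 * a < h ^ t → LL ζ t q (cd ζ s D) (A g.length) (dg h a) =
    ∑ T ∈ range g.length with (oc g T).1 = k, LP ζ t (s * D) h q (cd ζ s D) (A T) (oc g T) a) ∧
  LL ζ t q (cd ζ s D) (A g.length) (fun _ => 0) = 1

/-- the powers of `ζ` are independent modulo two -/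
def Ind (ζ : K) (M : ℕ) : Prop :=
  ∀ f : ℕ → ℤ, ∑ a ∈ range (2 * M), (f a : K) * ζ ^ a = 0 → ∀ a < 2 * M, (2 : ℤ) ∣ f a

end

/-- from congruences to the field -/
def S_Br1 : Prop := ∀ (K : Type) [Field K] [CharP K 2] (ζ : K) (t s D h q m : ℕ) (g : List Oc),
  0 < s → 0 < D → 0 < h → 0 < q → ζ ^ (2 * (s * D)) + ζ ^ (s * D) + 1 = 0 →
  ∀ μ, Sol t s D h q m g μ →
    FSol ζ t s D h q m g fun T => (range (q ^ (t + 1))).filter fun u => Odd (μ T u)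

/-- from the field to congruences -/
def S_Br2 : Prop := ∀ (K : Type) [Field K] [CharP K 2] (ζ : K) (t s D h q m : ℕ) (g : List Oc),
  0 < s → 0 < D → 0 < h → ζ ^ (2 * (s * D)) + ζ ^ (s * D) + 1 = 0 → Ind ζ (s * D) →
  ∀ A : ℕ → Finset ℕ, (∀ T, A T ⊆ range (q ^ (t + 1))) → FSol ζ t s D h q m g A →
    Sol t s D h q m g fun T u => if u ∈ A T then 1 else 0

/-- the product of the covers is read off a representation -/
def S_LP : Prop := ∀ (K : Type) [Field K] [CharP K 2] (ζ : K) (t M h q : ℕ) (Y : ℕ → ℕ → K)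
  (A : Finset ℕ) (S : Finset K) (o : Oc) (a : ℕ), (∃ e, h = 2 ^ e) → Rep ζ t h q Y A S →
  2 * a < h ^ t → LP ζ t M h q Y A o a = ∑ U ∈ S, pj ζ M h o 0 U ^ a

/-- a small table represents a small set -/
def S_Tab : Prop := ∀ (K : Type) [Field K] [CharP K 2] [IsAlgClosed K] (ξ : K) (t h q Δ ρ n : ℕ)
  (Y : ℕ → ℕ → K) (A : Finset ℕ), 0 < n → q = 2 ^ n → 0 < h → 2 * Δ < q → 2 * ρ < h ^ t →
  (∀ u, Y u t ^ q = Y u t) → Deg t h q Δ Y A → PV ξ t h q Y A → #A < (ρ + 1) * (q - Δ) →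
  ∃ S : Finset K, #S ≤ ρ ∧ Rep ξ t h q Y A S

/-- the finite field -/
def S_Fld : Prop := ∀ M : ℕ, (∃ j, M = 3 ^ j) →
  ∃ (K : Type) (_ : Field K) (_ : CharP K 2) (ζ : K), ζ ^ (2 * M) + ζ ^ M + 1 = 0 ∧ Ind ζ M ∧
    (∀ x : K, ∃ f : ℕ → ℕ, x = ∑ a ∈ range (2 * M), (f a : K) * ζ ^ a) ∧
    ∀ α : ℕ → Bool, ∃ Z : K, ∀ i < 2 * M,
      ∑ j ∈ range (2 * M), (Z * ζ ^ i) ^ 2 ^ j = cond (α i) 1 0

/-- the honest table of a point -/
def S_Hon : Prop := ∀ (K : Type) [Field K] [CharP K 2] (ζ : K) (t s D h q : ℕ),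
  (∃ j, s = 3 ^ j) → 0 < D → q = 4 ^ s → 2 * t * h * D < q →
  ζ ^ (2 * (s * D)) + ζ ^ (s * D) + 1 = 0 → Ind ζ (s * D) →
  (∀ x : K, ∃ f : ℕ → ℕ, x = ∑ a ∈ range (2 * (s * D)), (f a : K) * ζ ^ a) →
  ∀ U : K, ∃ A : Finset ℕ, A ⊆ range (q ^ (t + 1)) ∧ #A ≤ q ∧
    Deg t h q (2 * t * h * D) (cd ζ s D) A ∧ Rep ζ t h q (cd ζ s D) A {U}

end Pool.Agent.P.MP_b0c4db_lc.Half
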