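import Pool.Agent.P.MP_b0c4db_lc.Half.Seq

/-! A small table represents a small set of points. -/

namespace Pool.Agent.P.MP_b0c4db_lc.Half

open Finset Polynomial

namespace TabP

variable {K : Type} [Field K]

/-- a polynomial of small degree vanishing on the fixed points of the Frobenius map is zero -/
theorem zero_of_fix [CharP K 2] [IsAlgClosed K] {n q : ℕ} (hn : 0 < n) (hq : q = 2 ^ n)
    (p : K[X]) (hp : p.natDegree < q) (h : ∀ w : K, w ^ q = w → p.eval w = 0) : p = 0 := by
  classical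
  have h1 : 1 < q := hq ▸ Nat.one_lt_two_pow hn.ne'
  have h2 : (X ^ q - X : K[X]).natDegree = q := FiniteField.X_pow_card_sub_X_natDegree_eq K h1
  have h3 : (X ^ q - X : K[X]).Separable :=
    galois_poly_separable 2 q (hq ▸ dvd_pow_self 2 hn.ne')
  refine eq_zero_of_natDegree_lt_card_of_eval_eq_zero' p (X ^ q - X : K[X]).roots.toFinset
    (fun w hw => h w ?_) ?_
  · have := (mem_roots'.1 (Multiset.mem_toFinset.1 hw)).2
    simpa [sub_eq_zero] using this
  · rw [Multiset.toFinset_card_of_nodup (nodup_roots h3),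
      ← (IsAlgClosed.splits _).natDegree_eq_card_roots, h2]
    exact hp

/-- the moment polynomial -/
noncomputable def mm (t q : ℕ) (Y : ℕ → ℕ → K) (A : Finset ℕ) (κ : ℕ → ℕ) : K[X] :=
  ∑ u ∈ A, C (mon t (Y u) κ) * (1 + (X + C (Y u t)) ^ (q - 1))

theorem mm_eval (ξ : K) (t q : ℕ) (Y : ℕ → ℕ → K) (A : Finset ℕ) (κ : ℕ → ℕ) :
    (mm t q Y A κ).eval ξ = LL ξ t q Y A κ := by
  simp [mm, LL, gw, eval_finsetSum, mul_comm]

theorem gw_fix [CharP K 2] [DecidableEq K] {q : ℕ} (hq : 1 < q) {n : ℕ} (hn : q = 2 ^ n) {w v : K}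
    (hw : w ^ q = w) (hv : v ^ q = v) : gw w q v = if v = w then 1 else 0 := by
  have : Fact (Nat.Prime 2) := ⟨Nat.prime_two⟩
  unfold gw
  split_ifs with h
  · rw [h, CharTwo.add_self_eq_zero, zero_pow (by omega), add_zero]
  · have h1 : w + v ≠ 0 := fun e => h (CharTwo.add_eq_zero.1 e).symm
    have h2 : (w + v) ^ (q - 1) * (w + v) = 1 * (w + v) := by
      rw [← pow_succ, Nat.sub_add_cancel hq.le, one_mul]
      conv_rhs => rw [← hw, ← hv]
      rw [hn, add_pow_char_pow]
    rw [mul_right_cancel₀ h1 h2, CharTwo.add_self_eq_zero]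

theorem mm_deg {t h q Δ : ℕ} {Y : ℕ → ℕ → K} {A : Finset ℕ} (hD : Deg t h q Δ Y A) (hq : 0 < q)
    (κ : ℕ → ℕ) (hκ : ∀ j < t, κ j < 2 * h) : (mm t q Y A κ).natDegree ≤ Δ := by
  refine natDegree_le_iff_coeff_eq_zero.2 fun i hi => ?_
  have e : (mm t q Y A κ).coeff i =
      (∑ u ∈ A, mon t (Y u) κ * Y u t ^ (q - 1 - i)) * ((q - 1).choose i : K) := by
    rw [mm, finsetSum_coeff, sum_mul]
    refine sum_congr rfl fun u _ => ?_
    rw [coeff_C_mul, coeff_add, coeff_one, if_neg (by omega), zero_add, coeff_X_add_C_pow,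
      mul_assoc]
  rw [e]
  by_cases hq' : i < q
  · rw [hD κ hκ i hi hq', zero_mul]
  · rw [Nat.choose_eq_zero_of_lt (by omega), Nat.cast_zero, mul_zero]

/-- interpolation -/
theorem interp (A : Finset ℕ) (W : ℕ → K) (φ : ℕ → ℕ → K) (r d : ℕ) (h : #A < r * d) :
    ∃ c : ℕ → K[X], (∃ a ∈ range r, c a ≠ 0) ∧ (∀ a, (c a).natDegree < d) ∧
      ∀ u ∈ A, ∑ a ∈ range r, (c a).eval (W u) * φ u a = 0 := by
  classical
  let B : Matrix A (Fin r × Fin d) K := Matrix.of fun u p => W u ^ (p.2 : ℕ) * φ u p.1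
  have hk := LinearMap.ker_ne_bot_of_finrank_lt (f := B.mulVecLin) (by simpa using h)
  obtain ⟨x, hx, hx0⟩ := Submodule.exists_mem_ne_zero_of_ne_bot hk
  have hd : 0 < d := Nat.pos_of_ne_zero fun e => by simp [e] at h
  refine ⟨fun a => if ha : a < r then ∑ i : Fin d, C (x (⟨a, ha⟩, i)) * X ^ (i : ℕ) else 0,
    ?_, fun a => ?_, fun u hu => ?_⟩
  · obtain ⟨⟨a, i⟩, hp⟩ := Function.ne_iff.1 hx0
    refine ⟨a, mem_range.2 a.2, fun e => hp ?_⟩
    have := congrArg (coeff · i) e
    simp only [a.2, dif_pos, finsetSum_coeff, coeff_C_mul_X_pow, coeff_zero] at this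
    rw [sum_eq_single i (fun j _ hj => if_neg fun e => hj (Fin.ext e.symm)) (by simp),
      if_pos rfl] at this
    exact this
  · dsimp only
    split_ifs with ha
    · refine lt_of_le_of_lt (b := d - 1) (natDegree_sum_le_of_forall_le _ _ fun i _ =>
        (natDegree_C_mul_X_pow_le _ _).trans ?_) (by omega)
      have := i.2
      omega
    · simpa using hd
  · have := congrFun (LinearMap.mem_ker.1 hx) ⟨u, hu⟩
    simp only [Matrix.mulVecLin_apply, Matrix.mulVec, dotProduct, Fintype.sum_prod_type, B,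
      Pi.zero_apply, Matrix.of_apply] at this
    rw [← this, sum_range]
    refine sum_congr rfl fun a _ => ?_
    simp only [a.2, dif_pos, eval_finsetSum, eval_mul, eval_C, eval_pow, eval_X, sum_mul]
    exact sum_congr rfl fun i _ => by ring

/-- division by the common factor -/
theorem divide (ξ : K) (r : ℕ) (c : ℕ → K[X]) (hc : ∃ a ∈ range r, c a ≠ 0) (m : ℕ → ℕ → K[X])
    (h : ∀ b, ∑ a ∈ range r, c a * m a b = 0) :
    ∃ c' : ℕ → K, (∃ a ∈ range r, c' a ≠ 0) ∧
      ∀ b, ∑ a ∈ range r, c' a * (m a b).eval ξ = 0 := by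
  classical
  obtain ⟨a0, h0, h1⟩ := hc
  obtain ⟨g, h2, h3⟩ := extract_gcd c ⟨a0, h0⟩
  have h4 : (range r).gcd c ≠ 0 := fun e => h1 (by rw [h2 a0 h0, e, zero_mul])
  refine ⟨fun a => (g a).eval ξ, ?_, fun b => ?_⟩
  · by_contra! h5
    have : X - C ξ ∣ (range r).gcd g := Finset.dvd_gcd fun a ha => dvd_iff_isRoot.2 (h5 a ha)
    rw [h3] at this
    exact not_isUnit_X_sub_C ξ (isUnit_of_dvd_one this)
  · have h5 : (range r).gcd c * ∑ a ∈ range r, g a * m a b = 0 := by
      rw [← h b, mul_sum]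
      exact sum_congr rfl fun a ha => by rw [← mul_assoc, ← h2 a ha]
    have := congrArg (eval ξ) ((mul_eq_zero.1 h5).resolve_left h4)
    simpa [eval_finsetSum] using this

end TabP

open TabP

theorem tab : S_Tab := by
  intro K _ _ _ ξ t h q Δ ρ n Y A hn hq hh hΔ hρ hY hD hP hA
  classical
  have h1 : 1 < q := hq ▸ Nat.one_lt_two_pow hn.ne'
  have hb : ∀ a b, ∀ j < t, dg h a j + dg h b j < 2 * h := fun a b j _ => by
    have := dg_lt hh a j
    have := dg_lt hh b j
    omega
  have hb' : ∀ a, ∀ j < t, dg h a j < 2 * h := fun a j _ => by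
    have := dg_lt hh a j
    omega
  have he : ∀ κ (w : K), w ^ q = w →
      (mm t q Y A κ).eval w = ∑ u ∈ A, (if Y u t = w then 1 else 0) * mon t (Y u) κ :=
    fun κ w hw => by
      rw [mm_eval]
      exact sum_congr rfl fun u _ => by rw [gw_fix h1 hq hw (hY u)]
  obtain ⟨c, hc0, hc1, hc2⟩ := interp A (fun u => Y u t) (fun u a => mon t (Y u) (dg h a)) _ _ hA
  obtain ⟨c', ⟨a0, ha0, ha1⟩, hc3⟩ := divide ξ _ c hc0
    (fun a b => mm t q Y A fun j => dg h a j + dg h b j) fun b => by
      refine zero_of_fix hn hq _ (lt_of_le_of_lt (b := q - 1)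
        (natDegree_sum_le_of_forall_le _ _ fun a _ => natDegree_mul_le.trans ?_) (by omega))
        fun w hw => ?_
      · have := mm_deg hD (by omega) _ (hb a b)
        have := hc1 a
        omega
      · simp only [eval_finsetSum, eval_mul, he _ w hw, mul_sum, mon_add]
        rw [sum_comm]
        refine sum_eq_zero fun u hu => ?_
        split_ifs with e
        · rw [← zero_mul (mon t (Y u) (dg h b)), ← hc2 u hu, sum_mul, e]
          exact sum_congr rfl fun a _ => by ring
        · simp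
  let lam : ℕ → K := fun a => LL ξ t q Y A (dg h a)
  have hl : ∀ a b, a + b < h ^ t →
      LL ξ t q Y A (fun j => dg h a j + dg h b j) = lam (a + b) := fun a b hab => by
    have e : val t h (fun j => dg h a j + dg h b j) = a + b := by
      rw [val_add, val_dg (by omega), val_dg (by omega)]
    rw [hP _ (hb a b) (e ▸ hab), e]
  let p : K[X] := ∑ a ∈ range (ρ + 1), C (c' a) * X ^ a
  have hp : ∀ a, p.coeff a = if a ∈ range (ρ + 1) then c' a else 0 := fun a => by
    simp only [p, finsetSum_coeff, coeff_C_mul_X_pow]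
    rw [sum_ite_eq]
  have hp1 : p.natDegree ≤ ρ :=
    natDegree_le_iff_coeff_eq_zero.2 fun i hi => by rw [hp, if_neg (by simp; omega)]
  obtain ⟨S, hS1, hS2⟩ := seq lam p (fun e => ha1 (by simpa [e, ha0] using (hp a0).symm)) (h ^ t)
    (by omega) (fun b hb => by
      rw [← hc3 b]
      refine (sum_subset_zero_on_sdiff (range_mono (by omega)) (fun a ha => ?_)
        fun a ha => ?_)
      · obtain ⟨e1, e2⟩ := mem_sdiff.1 ha
        have := hp a
        rw [if_pos e1, coeff_eq_zero_of_natDegree_lt (by simpa using e2)] at this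
        rw [← this, zero_mul]
      · have := mem_range.1 ha
        rw [hp, if_pos (mem_range.2 (by omega)), mm_eval, hl a b (by omega)]) fun a ha => by
      rw [← hl a a (by omega), ← mm_eval, show lam a = _ from (mm_eval ξ t q Y A _).symm,
        ← eval_pow]
      congr 1
      rw [← sub_eq_zero]
      refine zero_of_fix hn hq _ ((natDegree_sub_le _ _).trans_lt (max_lt ?_ ?_)) fun w hw => ?_
      · have := mm_deg hD (by omega) _ (hb a a)
        omega
      · have := mm_deg hD (by omega) _ (hb' a)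
        exact natDegree_pow_le.trans_lt (by omega)
      · rw [eval_sub, eval_pow, he _ w hw, he _ w hw, CharTwo.sum_sq, ← sum_sub_distrib]
        refine sum_eq_zero fun u _ => ?_
        rw [mon_add]
        split_ifs <;> ring
  exact ⟨S, hS1.trans hp1, fun κ h2 h3 => (hP κ h2 h3).trans (hS2 _ h3)⟩

end Pool.Agent.P.MP_b0c4db_lc.Half
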