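import Pool.Agent.P.MP_b0c4db_lc.Half.Bas

/-! Completeness: a satisfying assignment gives a short solution of the system. -/

namespace Pool.Agent.P.MP_b0c4db_lc.Half

open Finset

namespace YesP

variable {K : Type} [Field K] [CharP K 2]

theorem pow_add2 (x y : K) (j : ℕ) : (x + y) ^ 2 ^ j = x ^ 2 ^ j + y ^ 2 ^ j := by
  have : Fact (Nat.Prime 2) := ⟨Nat.prime_two⟩
  exact add_pow_char_pow x y 2 j

theorem sq_sum (n : ℕ) (f : ℕ → K) : (∑ i ∈ range n, f i) ^ 2 = ∑ i ∈ range n, f i ^ 2 := by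
  have : Fact (Nat.Prime 2) := ⟨Nat.prime_two⟩
  exact sum_pow_char 2 _ _

theorem tr_add (n : ℕ) (x y : K) :
    ∑ j ∈ range n, (x + y) ^ 2 ^ j = ∑ j ∈ range n, x ^ 2 ^ j + ∑ j ∈ range n, y ^ 2 ^ j := by
  rw [← sum_add_distrib]
  exact sum_congr rfl fun j _ => pow_add2 x y j

omit [CharP K 2] in
theorem om_even {w : K} (hw : w ^ 2 + w + 1 = 0) (n : ℕ) : w ^ 2 ^ (2 * n) = w := by
  have h4 : w ^ 4 = w := by linear_combination (w ^ 2 - w) * hw
  induction n with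
  | zero => simp
  | succ n ih =>
    have : 2 ^ (2 * (n + 1)) = 2 ^ (2 * n) * 4 := by ring
    rw [this, pow_mul, ih, h4]

theorem tr_om {w : K} (hw : w ^ 2 + w + 1 = 0) (n : ℕ) :
    ∑ j ∈ range (2 * n), w ^ 2 ^ j = n := by
  have h2 : (2 : K) = 0 := CharTwo.two_eq_zero
  induction n with
  | zero => simp
  | succ n ih =>
    have : 2 * (n + 1) = 2 * n + 1 + 1 := by ring
    rw [this, sum_range_succ, sum_range_succ, ih, pow_succ 2 (2 * n), pow_mul w _ 2, om_even hw]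
    push_cast
    linear_combination hw - h2

/-- an element of trace zero is of the form `U * U + U` -/
theorem artin {w c : K} {n : ℕ} (hw : ∑ j ∈ range n, w ^ 2 ^ j = 1)
    (hc : ∑ j ∈ range n, c ^ 2 ^ j = 0) : ∃ U : K, U * U + U = c := by
  have h2 : (2 : K) = 0 := CharTwo.two_eq_zero
  set C : ℕ → K := fun i => ∑ j ∈ range i, c ^ 2 ^ j with hC
  have hC1 : ∀ i, C i ^ 2 = C (i + 1) + c := by
    intro i
    simp only [hC]
    rw [sq_sum, sum_range_succ']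
    have : ∀ j ∈ range i, (c ^ 2 ^ j) ^ 2 = c ^ 2 ^ (j + 1) := fun j _ => by
      rw [← pow_mul, pow_succ]
    rw [sum_congr rfl this]
    simp only [pow_zero, pow_one]
    linear_combination (-c) * h2
  have hs : ∑ i ∈ range n, C (i + 1) * w ^ 2 ^ (i + 1) = ∑ i ∈ range n, C i * w ^ 2 ^ i := by
    have e1 := sum_range_succ' (fun i => C i * w ^ 2 ^ i) n
    have e2 := sum_range_succ (fun i => C i * w ^ 2 ^ i) n
    have e3 : C n = 0 := hc
    have e4 : C 0 = 0 := by simp [hC]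
    rw [e3, zero_mul, add_zero] at e2
    rw [e4, zero_mul, add_zero] at e1
    rw [← e1, e2]
  have hw2 : ∑ i ∈ range n, w ^ 2 ^ (i + 1) = 1 := by
    have := congrArg (· ^ 2) hw
    simp only [one_pow] at this
    rw [sq_sum] at this
    rw [← this]
    exact sum_congr rfl fun j _ => by rw [← pow_mul, pow_succ]
  refine ⟨∑ i ∈ range n, C i * w ^ 2 ^ i, ?_⟩
  have e : (∑ i ∈ range n, C i * w ^ 2 ^ i) ^ 2 =
      ∑ i ∈ range n, C (i + 1) * w ^ 2 ^ (i + 1) + c * ∑ i ∈ range n, w ^ 2 ^ (i + 1) := by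
    rw [sq_sum, mul_sum, ← sum_add_distrib]
    refine sum_congr rfl fun i _ => ?_
    rw [mul_pow, hC1, ← pow_mul, ← pow_succ]
    ring
  rw [hs, hw2] at e
  linear_combination e + (∑ i ∈ range n, C i * w ^ 2 ^ i) * h2

/-- a true literal lifts the point `Z` to the cover -/
theorem lift {ζ Z : K} {M h : ℕ} (hM : Odd M) (hζ : ζ ^ (2 * M) + ζ ^ M + 1 = 0) (o : Oc)
    (hZ : ∑ j ∈ range (2 * M), (Z * ζ ^ o.2.1) ^ 2 ^ j = cond o.2.2 1 0) :
    ∃ U : K, pj ζ M h o 0 U = Z := by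
  have h2 : (2 : K) = 0 := CharTwo.two_eq_zero
  have hw : (ζ ^ M) ^ 2 + ζ ^ M + 1 = 0 := by rw [← pow_mul, mul_comm]; exact hζ
  have hM1 : (M : K) = 1 := by
    obtain ⟨r, rfl⟩ := hM
    push_cast
    linear_combination (r : K) * h2
  have ht := tr_om hw M
  rw [hM1] at ht
  have hc : ∑ j ∈ range (2 * M), (Z * ζ ^ o.2.1 + cond o.2.2 (ζ ^ M) 0) ^ 2 ^ j = 0 := by
    rw [tr_add, hZ]
    cases o.2.2 with
    | false => simp
    | true =>
      simp only [cond_true]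
      rw [ht]
      linear_combination h2
  obtain ⟨U, hU⟩ := artin ht hc
  refine ⟨U, ?_⟩
  have hpos : 0 < M := hM.pos
  have e : ζ ^ ((3 * M - 1) * o.2.1) * ζ ^ o.2.1 = 1 := by
    have : (3 * M - 1) * o.2.1 + o.2.1 = 3 * M * o.2.1 := by
      obtain ⟨r, hr⟩ : ∃ r, 3 * M = r + 1 := ⟨3 * M - 1, by omega⟩
      rw [hr, Nat.add_sub_cancel]
      ring
    rw [← pow_add, this, pow_mul, cube hζ, one_pow]
  simp only [pj, pow_zero, mul_one]
  rw [hU]
  linear_combination Z * e + ζ ^ ((3 * M - 1) * o.2.1) * cond o.2.2 (ζ ^ M) 0 * h2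

omit [CharP K 2] in
theorem pv_of_rep {ξ : K} {t h q : ℕ} {Y : ℕ → ℕ → K} {A : Finset ℕ} {S : Finset K}
    (hh : 0 < h) (hR : Rep ξ t h q Y A S) : PV ξ t h q Y A := by
  intro κ hκ hv
  have e := val_dg (t := t) hv
  rw [hR κ hκ hv, hR _ (fun j _ => (dg_lt hh _ j).trans_le (by omega)) (by rw [e]; exact hv), e]

theorem nrm_le (n Q q : ℕ) (A : ℕ → Finset ℕ) (hA : ∀ T, #(A T) ≤ q) :
    nrm n Q (fun T u => if u ∈ A T then 1 else 0) ≤ (n * q : ℕ) := by
  have : ∀ T ∈ range n, ∑ u ∈ range Q, (if u ∈ A T then (1 : ℤ) else 0) ^ 2 ≤ q := by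
    intro T _
    have e : ∀ u ∈ range Q, (if u ∈ A T then (1 : ℤ) else 0) ^ 2 = if u ∈ A T then 1 else 0 := by
      intro u _
      split_ifs <;> simp
    rw [sum_congr rfl e, sum_boole]
    refine Nat.cast_le.2 ((card_le_card fun u hu => ?_).trans (hA T))
    exact (mem_filter.1 hu).2
  refine (sum_le_card_nsmul _ _ _ this).trans ?_
  simp

end YesP

open YesP in
theorem yes2 (h1 : S_Br2) (h2 : S_LP) (h3 : S_Fld) (h4 : S_Hon) : S_Yes2 := by
  rintro t s D h q m g ⟨⟨js, hs⟩, ⟨jD, hD⟩, ⟨e, he⟩, hq, hΔ, hvar⟩ ⟨α, hα⟩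
  have hs0 : 0 < s := hs ▸ by positivity
  have hD0 : 0 < D := hD ▸ by positivity
  have hh0 : 0 < h := he ▸ by positivity
  have hM : s * D = 3 ^ (js + jD) := by rw [hs, hD, pow_add]
  have hodd : Odd (s * D) := hM ▸ Odd.pow (by decide)
  obtain ⟨K, _, _, ζ, hζ, hI, hsp, hZ⟩ := h3 (s * D) ⟨_, hM⟩
  obtain ⟨Z, hZ⟩ := hZ α
  have hT : ∀ k, ∃ T, k < m → T < g.length ∧ (oc g T).1 = k ∧ ∃ U, pj ζ (s * D) h (oc g T) 0 U = Z := by
    intro k
    by_cases hk : k < m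
    · obtain ⟨o, ho, h5, h6⟩ := hα k hk
      obtain ⟨T, hT, h7⟩ := List.getElem_of_mem ho
      have h8 : oc g T = o := by rw [oc, List.getD_eq_getElem _ _ hT, h7]
      refine ⟨T, fun _ => ⟨hT, by rw [h8, h5], ?_⟩⟩
      rw [h8]
      refine lift hodd hζ o ?_
      have h9 := hvar o ho
      have h10 : D ≤ s * D := Nat.le_mul_of_pos_left D hs0
      rw [hZ _ (by omega), h6]
    · exact ⟨0, fun h => absurd h hk⟩
  choose Tk hTk using hT
  choose H hH using h4 K ζ t s D h q ⟨js, hs⟩ hD0 hq (by omega) hζ hI hsp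
  have key : ∀ T, ∃ (A : Finset ℕ) (S : Finset K), A ⊆ range (q ^ (t + 1)) ∧ #A ≤ q ∧
      Deg t h q (2 * t * h * D) (cd ζ s D) A ∧ Rep ζ t h q (cd ζ s D) A S ∧
      (T = g.length → S = {Z}) ∧ (T < g.length → (oc g T).1 < m → ∀ a,
        ∑ U ∈ S, pj ζ (s * D) h (oc g T) 0 U ^ a = if T = Tk (oc g T).1 then Z ^ a else 0) := by
    intro T
    by_cases c1 : T = g.length
    · obtain ⟨a1, a2, a3, a4⟩ := hH Z
      exact ⟨H Z, {Z}, a1, a2, a3, a4, fun _ => rfl, fun h => by omega⟩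
    by_cases c2 : (oc g T).1 < m ∧ T = Tk (oc g T).1
    · obtain ⟨-, -, U, hU⟩ := hTk _ c2.1
      rw [← c2.2] at hU
      obtain ⟨a1, a2, a3, a4⟩ := hH U
      refine ⟨H U, {U}, a1, a2, a3, a4, fun h => absurd h c1, fun _ _ a => ?_⟩
      rw [sum_singleton, hU, if_pos c2.2]
    · refine ⟨∅, ∅, empty_subset _, by simp, fun _ _ _ _ _ => sum_empty, fun _ _ _ => ?_,
        fun h => absurd h c1, fun _ c3 a => ?_⟩
      · simp [LL]
      · rw [sum_empty, if_neg fun c4 => c2 ⟨c3, c4⟩]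
  choose A S k1 k2 k3 k4 k5 k6 using key
  refine ⟨_, h1 K ζ t s D h q m g hs0 hD0 hh0 hζ hI A k1
    ⟨fun T _ => ⟨k3 T, pv_of_rep hh0 (k4 T)⟩, fun k hk a ha => ?_, ?_⟩, nrm_le _ _ _ A k2⟩
  · have ha' : a < h ^ t := by omega
    have e1 := val_dg (t := t) ha'
    rw [k4 _ _ (fun j _ => (dg_lt hh0 _ j).trans_le (by omega)) (by rw [e1]; exact ha'), e1,
      k5 _ rfl, sum_singleton]
    have e2 : ∀ T ∈ (range g.length).filter fun T => (oc g T).1 = k,
        LP ζ t (s * D) h q (cd ζ s D) (A T) (oc g T) a = if T = Tk k then Z ^ a else 0 := by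
      intro T hT
      obtain ⟨b1, b2⟩ := mem_filter.1 hT
      rw [h2 K ζ t (s * D) h q _ _ _ _ a ⟨e, he⟩ (k4 T) ha,
        k6 T (mem_range.1 b1) (by rw [b2]; exact hk) a, b2]
    obtain ⟨b1, b2, -⟩ := hTk k hk
    rw [sum_congr rfl e2, sum_ite_eq', if_pos (mem_filter.2 ⟨mem_range.2 b1, b2⟩)]
  · have e1 : val t h (fun _ => 0) = 0 := by simp [val]
    rw [k4 _ _ (fun _ _ => by omega) (by rw [e1]; positivity), e1, k5 _ rfl, sum_singleton,
      pow_zero]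

end Pool.Agent.P.MP_b0c4db_lc.Half
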